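import Mathlib

/-!
# Crossing segments in the plane
-/

set_option autoImplicit false

namespace Pool.Agent.Thin

open Filter Topology

/-- The determinant. -/
def detp (u v : ℝ × ℝ) : ℝ := u.1 * v.2 - u.2 * v.1

/-- The point with the parameter `r` of a segment. -/
def pnt (A B : ℝ × ℝ) (r : ℝ) : ℝ × ℝ := A + r • (B - A)

theorem pnt_mem {A B : ℝ × ℝ} {r : ℝ} (h0 : 0 ≤ r) (h1 : r ≤ 1) : pnt A B r ∈ segment ℝ A B := by
  rw [segment_eq_image']
  exact ⟨r, ⟨h0, h1⟩, rfl⟩

theorem pnt_sub (A B A' B' : ℝ × ℝ) (r : ℝ) :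
    pnt A' B' r - pnt A B r = (1 - r) • (A' - A) + r • (B' - B) := by
  unfold pnt; module

theorem continuous_detp : Continuous fun w : (ℝ × ℝ) × (ℝ × ℝ) => detp w.1 w.2 := by
  unfold detp; fun_prop

/-- Two segments that meet in inner points and have no end point in common are not parallel. -/
theorem det_ne_zero {A B C D : ℝ × ℝ} {r r' : ℝ} (h0 : 0 < r) (h1 : r < 1) (h0' : 0 < r')
    (h1' : r' < 1) (h : pnt A B r = pnt C D r') (hA : A ∉ segment ℝ C D)
    (hC : C ∉ segment ℝ A B) (hD : D ∉ segment ℝ A B) : detp (B - A) (D - C) ≠ 0 := by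
  intro hdet
  have hu : B - A ≠ 0 := by
    intro hu
    apply hA
    have : pnt A B r = A := by unfold pnt; rw [hu, smul_zero, add_zero]
    rw [← this, h]
    exact pnt_mem h0'.le h1'.le
  -- `D - C = c • (B - A)`
  obtain ⟨c, hc⟩ : ∃ c : ℝ, D - C = c • (B - A) := by
    unfold detp at hdet
    by_cases h2 : (B - A).1 = 0
    · have h3 : (B - A).2 ≠ 0 := by
        intro h3
        exact hu (Prod.ext h2 h3)
      refine ⟨(D - C).2 / (B - A).2, Prod.ext ?_ ?_⟩
      · rw [Prod.smul_fst, h2, smul_zero]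
        rw [h2, zero_mul, zero_sub, neg_eq_zero] at hdet
        exact (mul_eq_zero.1 hdet).resolve_left h3
      · rw [Prod.smul_snd, smul_eq_mul, div_mul_cancel₀ _ h3]
    · refine ⟨(D - C).1 / (B - A).1, Prod.ext ?_ ?_⟩
      · rw [Prod.smul_fst, smul_eq_mul, div_mul_cancel₀ _ h2]
      · rw [Prod.smul_snd, smul_eq_mul]
        field_simp
        linarith
  have hCA : C - A = (r - r' * c) • (B - A) := by
    unfold pnt at h
    rw [hc] at h
    have : C - A = (A + r • (B - A)) - r' • c • (B - A) - A := by rw [h]; abel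
    rw [this]
    module
  have hDA : D - A = (r + (1 - r') * c) • (B - A) := by
    have : D - A = (D - C) + (C - A) := by abel
    rw [this, hc, hCA]
    module
  have hmC : ∀ x : ℝ, 0 ≤ x → x ≤ 1 → C - A = x • (B - A) → False := by
    intro x x0 x1 hx
    apply hC
    have : C = pnt A B x := by unfold pnt; rw [← hx]; abel
    rw [this]
    exact pnt_mem x0 x1
  have hmD : ∀ x : ℝ, 0 ≤ x → x ≤ 1 → D - A = x • (B - A) → False := by
    intro x x0 x1 hx
    apply hD
    have : D = pnt A B x := by unfold pnt; rw [← hx]; abel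
    rw [this]
    exact pnt_mem x0 x1
  rcases lt_trichotomy c 0 with hc0 | hc0 | hc0
  · -- `C` is beyond `B`, `D` is before `A`
    have h3 : r + (1 - r') * c < 0 := by
      by_contra h3
      push Not at h3
      exact hmD _ h3 (by nlinarith) hDA
    apply hA
    have : A = pnt C D ((r - r' * c) / (-c)) := by
      unfold pnt
      have h4 : C = A + (r - r' * c) • (B - A) := by rw [← hCA]; abel
      rw [hc, h4, smul_smul]
      have h5 : (r - r' * c) / (-c) * c = -(r - r' * c) := by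
        rw [div_neg, neg_mul, div_mul_cancel₀ _ hc0.ne]
      rw [h5]
      module
    rw [this]
    apply pnt_mem
    · apply div_nonneg <;> nlinarith
    · rw [div_le_one (by linarith)]; nlinarith
  · exact hmC r h0.le h1.le (by rw [hCA, hc0, mul_zero, sub_zero])
  · have h3 : r - r' * c < 0 := by
      by_contra h3
      push Not at h3
      exact hmC _ h3 (by nlinarith) hCA
    apply hA
    have : A = pnt C D ((r' * c - r) / c) := by
      unfold pnt
      have h4 : C = A + (r - r' * c) • (B - A) := by rw [← hCA]; abel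
      rw [hc, h4, smul_smul, div_mul_cancel₀ _ hc0.ne']
      module
    rw [this]
    apply pnt_mem
    · apply div_nonneg <;> nlinarith
    · rw [div_le_one hc0]; nlinarith

/-- Cramer's rule. -/
theorem cramer {A B C D : ℝ × ℝ} (h : detp (B - A) (D - C) ≠ 0) :
    pnt A B (detp (C - A) (D - C) / detp (B - A) (D - C)) =
      pnt C D (detp (C - A) (B - A) / detp (B - A) (D - C)) := by
  obtain ⟨d, hd⟩ : ∃ d, d = detp (B - A) (D - C) := ⟨_, rfl⟩
  obtain ⟨x, hx⟩ : ∃ x, x = detp (C - A) (D - C) := ⟨_, rfl⟩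
  obtain ⟨y, hy⟩ : ∃ y, y = detp (C - A) (B - A) := ⟨_, rfl⟩
  rw [← hd, ← hx, ← hy]
  rw [← hd] at h
  unfold detp at hd hx hy
  simp only [Prod.fst_sub, Prod.snd_sub] at hd hx hy
  have key : ∀ a b c e : ℝ, a * d + x * (b - a) = c * d + y * (e - c) →
      a + x / d * (b - a) = c + y / d * (e - c) := by
    intro a b c e h1
    field_simp
    linarith
  unfold pnt
  apply Prod.ext
  · simp only [Prod.fst_add, Prod.smul_fst, Prod.fst_sub, smul_eq_mul]
    apply key
    rw [hd, hx, hy]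
    ring
  · simp only [Prod.snd_add, Prod.smul_snd, Prod.snd_sub, smul_eq_mul]
    apply key
    rw [hd, hx, hy]
    ring

/-- For two segments without an end point of one of them on the other one: either they cross, also
after a small perturbation, or they have a positive distance, also after a small perturbation. -/
theorem cross_or_gap {A B C D : ℝ × ℝ} (hA : A ∉ segment ℝ C D) (hB : B ∉ segment ℝ C D)
    (hC : C ∉ segment ℝ A B) (hD : D ∉ segment ℝ A B) :
    (∀ᶠ w in 𝓝 (A, B, C, D), ∃ r r' : ℝ, 0 ≤ r ∧ r ≤ 1 ∧ 0 ≤ r' ∧ r' ≤ 1 ∧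
      pnt w.1 w.2.1 r = pnt w.2.2.1 w.2.2.2 r') ∨
    ∃ δ : ℝ, 0 < δ ∧ ∀ᶠ w in 𝓝 (A, B, C, D), ∀ r r' : ℝ, 0 ≤ r → r ≤ 1 → 0 ≤ r' → r' ≤ 1 →
      δ ≤ dist (pnt w.1 w.2.1 r) (pnt w.2.2.1 w.2.2.2 r') := by
  by_cases hex : ∃ r r' : ℝ, 0 ≤ r ∧ r ≤ 1 ∧ 0 ≤ r' ∧ r' ≤ 1 ∧ pnt A B r = pnt C D r'
  · left
    obtain ⟨r, r', r0, r1, r0', r1', h⟩ := hex
    have p0 : ∀ X Y : ℝ × ℝ, pnt X Y 0 = X := fun X Y => by unfold pnt; rw [zero_smul, add_zero]
    have p1 : ∀ X Y : ℝ × ℝ, pnt X Y 1 = Y := fun X Y => by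
      unfold pnt; rw [one_smul, add_sub_cancel]
    have s0 : 0 < r := lt_of_le_of_ne r0 fun he => hA (by
      rw [← p0 A B, he, h]; exact pnt_mem r0' r1')
    have s1 : r < 1 := lt_of_le_of_ne r1 fun he => hB (by
      rw [← p1 A B, ← he, h]; exact pnt_mem r0' r1')
    have s0' : 0 < r' := lt_of_le_of_ne r0' fun he => hC (by
      rw [← p0 C D, he, ← h]; exact pnt_mem r0 r1)
    have s1' : r' < 1 := lt_of_le_of_ne r1' fun he => hD (by
      rw [← p1 C D, ← he, ← h]; exact pnt_mem r0 r1)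
    have hdet := det_ne_zero s0 s1 s0' s1' h hA hC hD
    have hCA : C - A = r • (B - A) - r' • (D - C) := by
      unfold pnt at h
      have : C - A = (C + r' • (D - C)) - r' • (D - C) - A := by abel
      rw [this, ← h]
      abel
    have e1 : detp (C - A) (D - C) / detp (B - A) (D - C) = r := by
      rw [div_eq_iff hdet, hCA]
      unfold detp
      simp only [Prod.fst_sub, Prod.snd_sub, Prod.smul_fst, Prod.smul_snd, smul_eq_mul]
      ring
    have e2 : detp (C - A) (B - A) / detp (B - A) (D - C) = r' := by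
      rw [div_eq_iff hdet, hCA]
      unfold detp
      simp only [Prod.fst_sub, Prod.snd_sub, Prod.smul_fst, Prod.smul_snd, smul_eq_mul]
      ring
    have c0 : Continuous fun w : (ℝ × ℝ) × (ℝ × ℝ) × (ℝ × ℝ) × (ℝ × ℝ) =>
        detp (w.2.1 - w.1) (w.2.2.2 - w.2.2.1) := by unfold detp; fun_prop
    have c1 : Continuous fun w : (ℝ × ℝ) × (ℝ × ℝ) × (ℝ × ℝ) × (ℝ × ℝ) =>
        detp (w.2.2.1 - w.1) (w.2.2.2 - w.2.2.1) := by unfold detp; fun_prop
    have c2 : Continuous fun w : (ℝ × ℝ) × (ℝ × ℝ) × (ℝ × ℝ) × (ℝ × ℝ) =>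
        detp (w.2.2.1 - w.1) (w.2.1 - w.1) := by unfold detp; fun_prop
    have t0 := c0.tendsto (A, B, C, D)
    have t1 := (c1.tendsto (A, B, C, D)).div t0 hdet
    have t2 := (c2.tendsto (A, B, C, D)).div t0 hdet
    simp only at t1 t2
    rw [e1] at t1
    rw [e2] at t2
    filter_upwards [t0.eventually_ne hdet, t1.eventually (Ioi_mem_nhds s0),
      t1.eventually (Iio_mem_nhds s1), t2.eventually (Ioi_mem_nhds s0'),
      t2.eventually (Iio_mem_nhds s1')] with w w0 w1 w2 w3 w4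
    exact ⟨_, _, le_of_lt w1, le_of_lt w2, le_of_lt w3, le_of_lt w4, cramer w0⟩
  · right
    push Not at hex
    have hc : Continuous fun q : ℝ × ℝ => dist (pnt A B q.1) (pnt C D q.2) := by
      unfold pnt; fun_prop
    obtain ⟨q, hq, hmin⟩ := (isCompact_Icc (a := ((0 : ℝ), (0 : ℝ))) (b := (1, 1))).exists_isMinOn
      ⟨(0, 0), ⟨le_rfl, by simp⟩⟩ hc.continuousOn
    obtain ⟨⟨q0, q0'⟩, q1, q1'⟩ := hq
    have hpos : 0 < dist (pnt A B q.1) (pnt C D q.2) :=
      dist_pos.2 (hex q.1 q.2 q0 q1 q0' q1')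
    obtain ⟨d, hd⟩ : ∃ d, d = dist (pnt A B q.1) (pnt C D q.2) := ⟨_, rfl⟩
    rw [← hd] at hpos
    refine ⟨d / 2, by positivity, ?_⟩
    have hball := Metric.ball_mem_nhds (A, B, C, D) (by positivity : (0 : ℝ) < d / 4)
    filter_upwards [hball] with w hw
    rw [Metric.mem_ball] at hw
    have w1 : dist w.1 A < d / 4 := lt_of_le_of_lt (le_max_left _ _) hw
    have hw2 : dist w.2 (B, C, D) < d / 4 := lt_of_le_of_lt (le_max_right _ _) hw
    have w2 : dist w.2.1 B < d / 4 := lt_of_le_of_lt (le_max_left _ _) hw2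
    have hw3 : dist w.2.2 (C, D) < d / 4 := lt_of_le_of_lt (le_max_right _ _) hw2
    have w3 : dist w.2.2.1 C < d / 4 := lt_of_le_of_lt (le_max_left _ _) hw3
    have w4 : dist w.2.2.2 D < d / 4 := lt_of_le_of_lt (le_max_right _ _) hw3
    have hpt : ∀ (X Y X' Y' : ℝ × ℝ) (r : ℝ), 0 ≤ r → r ≤ 1 → dist X' X < d / 4 →
        dist Y' Y < d / 4 → dist (pnt X' Y' r) (pnt X Y r) ≤ d / 4 := by
      intro X Y X' Y' r r0 r1 h1 h2
      rw [dist_eq_norm, pnt_sub]
      rw [dist_eq_norm] at h1 h2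
      refine (norm_add_le _ _).trans ?_
      rw [norm_smul, norm_smul, Real.norm_of_nonneg r0,
        Real.norm_of_nonneg (by linarith : (0 : ℝ) ≤ 1 - r)]
      nlinarith [norm_nonneg (X' - X), norm_nonneg (Y' - Y)]
    intro r r' r0 r1 r0' r1'
    have h1 := hpt A B w.1 w.2.1 r r0 r1 w1 w2
    have h2 := hpt C D w.2.2.1 w.2.2.2 r' r0' r1' w3 w4
    have h3 : d ≤ dist (pnt A B r) (pnt C D r') := by
      rw [hd]
      exact hmin (⟨⟨r0, r0'⟩, ⟨r1, r1'⟩⟩ : (r, r') ∈ Set.Icc ((0 : ℝ), (0 : ℝ)) (1, 1))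
    have h4 := dist_triangle4 (pnt A B r) (pnt w.1 w.2.1 r) (pnt w.2.2.1 w.2.2.2 r')
      (pnt C D r')
    rw [dist_comm (pnt A B r) (pnt w.1 w.2.1 r)] at h4
    linarith

end Pool.Agent.Thin
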