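import Pool.Agent.Thin.Main
import Pool.Agent.Thin.Plane

/-!
# Generic thin chains are flat-state connected
-/

set_option autoImplicit false

namespace Pool.Agent.Thin

open Real Finset Pool.Agent.Lib_helper54.Flat Filter Topology

/-- The stretched polygon. -/
noncomputable def str (ℓ a : ℕ → ℝ) (fold : ℕ → Bool) (s : ℕ → ℝ) (ε : ℝ) (k : ℕ) : ℝ × ℝ :=
  (∑ m ∈ range k, side fold m * ℓ m * cos (ε * ∑ j ∈ range m, s j * a j),
    ∑ m ∈ range k, side fold m * ℓ m * (sin (ε * ∑ j ∈ range m, s j * a j) / ε))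

theorem tendsto_sin_div (c : ℝ) :
    Tendsto (fun ε : ℝ => sin (ε * c) / ε) (𝓝[>] 0) (𝓝 c) := by
  have h1 : Tendsto (fun ε : ℝ => c * sinc (ε * c)) (𝓝[>] 0) (𝓝 (c * sinc (0 * c))) := by
    apply Tendsto.mono_left _ nhdsWithin_le_nhds
    exact (continuous_const.mul (continuous_sinc.comp (continuous_id.mul continuous_const))).tendsto 0
  rw [zero_mul, sinc_zero, mul_one] at h1
  refine h1.congr' ?_
  filter_upwards [self_mem_nhdsWithin] with ε hε
  have hε0 : ε ≠ 0 := (Set.mem_Ioi.1 hε).ne'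
  by_cases hc : c = 0
  · rw [hc, zero_mul, mul_zero, sin_zero, zero_div]
  · rw [sinc_of_ne_zero (mul_ne_zero hε0 hc)]
    field_simp

theorem tendsto_str (ℓ a : ℕ → ℝ) (fold : ℕ → Bool) (s : ℕ → ℝ) (k : ℕ) :
    Tendsto (fun ε => str ℓ a fold s ε k) (𝓝[>] 0) (𝓝 (lim ℓ a fold s k)) := by
  unfold str lim
  apply Tendsto.prodMk_nhds
  · apply tendsto_finsetSum
    intro m _
    have h1 : Tendsto (fun ε : ℝ => cos (ε * ∑ j ∈ range m, s j * a j)) (𝓝[>] 0)
        (𝓝 (cos (0 * ∑ j ∈ range m, s j * a j))) := by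
      apply Tendsto.mono_left _ nhdsWithin_le_nhds
      exact (continuous_cos.comp (continuous_id.mul continuous_const)).tendsto 0
    rw [zero_mul, cos_zero] at h1
    simpa using h1.const_mul (side fold m * ℓ m)
  · apply tendsto_finsetSum
    intro m _
    exact (tendsto_sin_div _).const_mul (side fold m * ℓ m)

theorem tendsto_mul_zero (K : ℝ) : Tendsto (fun ε : ℝ => ε * K) (𝓝[>] 0) (𝓝 0) := by
  have h1 : Continuous fun ε : ℝ => ε * K := by fun_prop
  have h2 := h1.tendsto 0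
  rw [zero_mul] at h2
  exact h2.mono_left nhdsWithin_le_nhds

/-- The alternative for two links of the stretched polygon. -/
theorem alternative {n : ℕ} {ℓ a : ℕ → ℝ} {fold : ℕ → Bool} (hG : Generic n ℓ a fold)
    {s : ℕ → ℝ} (hs : ∀ k, s k = 1 ∨ s k = -1) {i j : ℕ} (hij : i + 1 < j) (hj : j < n)
    (K : ℝ) :
    ∀ᶠ ε in 𝓝[>] (0 : ℝ), (∃ r r' : ℝ, 0 ≤ r ∧ r ≤ 1 ∧ 0 ≤ r' ∧ r' ≤ 1 ∧
      pnt (str ℓ a fold s ε i) (str ℓ a fold s ε (i + 1)) r =
        pnt (str ℓ a fold s ε j) (str ℓ a fold s ε (j + 1)) r') ∨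
      ∀ r r' : ℝ, 0 ≤ r → r ≤ 1 → 0 ≤ r' → r' ≤ 1 →
        ε * K < dist (pnt (str ℓ a fold s ε i) (str ℓ a fold s ε (i + 1)) r)
          (pnt (str ℓ a fold s ε j) (str ℓ a fold s ε (j + 1)) r') := by
  have ht : Tendsto (fun ε => (str ℓ a fold s ε i, str ℓ a fold s ε (i + 1),
      str ℓ a fold s ε j, str ℓ a fold s ε (j + 1))) (𝓝[>] 0)
      (𝓝 (lim ℓ a fold s i, lim ℓ a fold s (i + 1), lim ℓ a fold s j,
        lim ℓ a fold s (j + 1))) :=
    (tendsto_str ℓ a fold s i).prodMk_nhds ((tendsto_str ℓ a fold s (i + 1)).prodMk_nhds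
      ((tendsto_str ℓ a fold s j).prodMk_nhds (tendsto_str ℓ a fold s (j + 1))))
  rcases cross_or_gap (hG s hs i j (by omega) hj (by omega) (by omega))
    (hG s hs (i + 1) j (by omega) hj (by omega) (by omega))
    (hG s hs j i (by omega) (by omega) (by omega) (by omega))
    (hG s hs (j + 1) i (by omega) (by omega) (by omega) (by omega)) with h | ⟨δ, hδ, h⟩
  · exact (ht.eventually h).mono fun ε h => Or.inl h
  · have h2 := tendsto_mul_zero K
    filter_upwards [ht.eventually h, h2.eventually (Iio_mem_nhds hδ)] with ε h3 h4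
    exact Or.inr fun r r' r0 r1 r0' r1' => lt_of_lt_of_le h4 (h3 r r' r0 r1 r0' r1')

/-- A sign sequence from a vector of truth values. -/
noncomputable def sv (n : ℕ) (τ : Fin n → Bool) (k : ℕ) : ℝ :=
  if h : k < n then (if τ ⟨k, h⟩ = true then 1 else -1) else 1

theorem sv_cases (n : ℕ) (τ : Fin n → Bool) (k : ℕ) : sv n τ k = 1 ∨ sv n τ k = -1 := by
  unfold sv
  split_ifs
  · exact Or.inl rfl
  · exact Or.inr rfl
  · exact Or.inl rfl

theorem exists_sv {n : ℕ} {s : ℕ → ℝ} (hs : ∀ k, s k = 1 ∨ s k = -1) :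
    ∃ τ : Fin n → Bool, ∀ k, k < n → sv n τ k = s k := by
  classical
  refine ⟨fun k => decide (s k.val = 1), fun k hk => ?_⟩
  unfold sv
  rw [dif_pos hk]
  rcases hs k with h | h
  · simp [h]
  · rw [h]
    have : ¬ ((-1 : ℝ) = 1) := by norm_num
    simp [h, this]

theorem str_congr {ℓ a : ℕ → ℝ} {fold : ℕ → Bool} {s s' : ℕ → ℝ} {n : ℕ}
    (h : ∀ k, k < n → s k = s' k) (ε : ℝ) {k : ℕ} (hk : k ≤ n) :
    str ℓ a fold s ε k = str ℓ a fold s' ε k := by
  have h1 : ∀ m ∈ range k, ∑ j ∈ range m, s j * a j = ∑ j ∈ range m, s' j * a j := by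
    intro m hm
    refine sum_congr rfl fun j hj => ?_
    have := mem_range.1 hm
    have := mem_range.1 hj
    rw [h j (by omega)]
  have e1 : ∑ m ∈ range k, side fold m * ℓ m * cos (ε * ∑ j ∈ range m, s j * a j) =
      ∑ m ∈ range k, side fold m * ℓ m * cos (ε * ∑ j ∈ range m, s' j * a j) :=
    sum_congr rfl fun m hm => by rw [h1 m hm]
  have e2 : ∑ m ∈ range k, side fold m * ℓ m * (sin (ε * ∑ j ∈ range m, s j * a j) / ε) =
      ∑ m ∈ range k, side fold m * ℓ m * (sin (ε * ∑ j ∈ range m, s' j * a j) / ε) :=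
    sum_congr rfl fun m hm => by rw [h1 m hm]
  unfold str
  rw [e1, e2]

section

variable {n : ℕ} {P : Fin (n + 1) → E3}

theorem vtt_coord {p e f : E3} (h : Pair e f) {s : ℕ → ℝ} (hs : ∀ k, s k = 1 ∨ s k = -1)
    (α ρ : ℕ → ℝ) (k : ℕ) : vtt p e (fun k => s k • f) α ρ k =
      p + (∑ m ∈ range k, ρ m * cos (psi s α m)) • e +
        (∑ m ∈ range k, ρ m * sin (psi s α m)) • f := by
  induction k with
  | zero => simp [vtt]
  | succ k ih =>
    rw [vtt_succ, ih, sum_range_succ, sum_range_succ, (frm_flat h hs α k).1]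
    module

/-- The vertices of a flat thin chain. -/
theorem vx_thin {ℓ a : ℕ → ℝ} {fold : ℕ → Bool} {ε : ℝ} (hε : 0 < ε)
    (hT : IsThin ℓ a fold ε P) (hsmall : ∀ k, k + 2 ≤ n → 0 < ε * a k ∧ ε * a k < π / 2)
    {p e f : E3} (h : Pair e f) {s : ℕ → ℝ} (hs : ∀ k, s k = 1 ∨ s k = -1)
    (hP : P = cfg n p e (fun k => s k • f) (al (jointAngle P)) (rh (len P) (jointAngle P)))
    {k : ℕ} (hk : k ≤ n) :
    vx P k = p + (str ℓ a fold s ε k).1 • e + (ε * (str ℓ a fold s ε k).2) • f := by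
  have hsg : ∀ m, m < n → sg (jointAngle P) m = side fold m := by
    intro m
    induction m with
    | zero => intro _; rfl
    | succ m ih =>
      intro hm
      have h1 := ih (by omega)
      have h2 := hT.2 m (by omega)
      have h3 := hsmall m (by omega)
      have e1 : sg (jointAngle P) (m + 1) =
        if jointAngle P m ≤ π / 2 then -sg (jointAngle P) m else sg (jointAngle P) m := rfl
      have e2 : side fold (m + 1) = if fold m = true then -side fold m else side fold m := rfl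
      rw [e1, e2, h1]
      by_cases hf : fold m = true
      · rw [if_pos hf] at h2
        rw [if_pos hf, if_pos (by rw [h2]; linarith)]
      · rw [if_neg hf] at h2
        rw [if_neg hf, if_neg (by rw [h2]; linarith)]
  have hal : ∀ m, m + 2 ≤ n → al (jointAngle P) m = ε * a m := by
    intro m hm
    have h2 := hT.2 m hm
    have h3 := hsmall m hm
    unfold al
    rw [h2]
    split_ifs
    · exact min_eq_left (by linarith)
    · rw [min_eq_right (by linarith)]; ring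
  have hpsi : ∀ m, m < n → psi s (al (jointAngle P)) m = ε * ∑ j ∈ range m, s j * a j := by
    intro m hm
    unfold psi
    rw [mul_sum]
    refine sum_congr rfl fun j hj => ?_
    have := mem_range.1 hj
    rw [hal j (by omega)]
    ring
  have hrh : ∀ m, m < n → rh (len P) (jointAngle P) m = side fold m * ℓ m := by
    intro m hm
    unfold rh len
    rw [if_pos hm, hT.1 m hm, hsg m hm, mul_comm]
  have hv : vx P k = vtt p e (fun k => s k • f) (al (jointAngle P))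
      (rh (len P) (jointAngle P)) k := by
    conv_lhs => rw [hP]
    exact vx_cfg hk
  rw [hv, vtt_coord h hs]
  have e1 : ∑ m ∈ range k, rh (len P) (jointAngle P) m * cos (psi s (al (jointAngle P)) m) =
      (str ℓ a fold s ε k).1 := by
    unfold str
    refine sum_congr rfl fun m hm => ?_
    have := mem_range.1 hm
    rw [hrh m (by omega), hpsi m (by omega)]
  have e2 : ∑ m ∈ range k, rh (len P) (jointAngle P) m * sin (psi s (al (jointAngle P)) m) =
      ε * (str ℓ a fold s ε k).2 := by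
    unfold str
    rw [mul_sum]
    refine sum_congr rfl fun m hm => ?_
    have := mem_range.1 hm
    rw [hrh m (by omega), hpsi m (by omega)]
    field_simp
  rw [e1, e2]

/-- The gap condition for a flat thin chain. -/
theorem gap_thin {ℓ a : ℕ → ℝ} {fold : ℕ → Bool} {ε K : ℝ} (hε : 0 < ε) (hε1 : ε ≤ 1)
    (hT : IsThin ℓ a fold ε P) (hsmall : ∀ k, k + 2 ≤ n → 0 < ε * a k ∧ ε * a k < π / 2)
    (hK : K = (∑ k ∈ range n, ℓ k) * (∑ k ∈ range (n - 1), a k) ^ 2)
    (hS : IsSimple P) (cP : Coplanar ℝ (Set.range P))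
    (hA : ∀ τ : Fin n → Bool, ∀ i j : ℕ, i + 1 < j → j < n →
      (∃ r r' : ℝ, 0 ≤ r ∧ r ≤ 1 ∧ 0 ≤ r' ∧ r' ≤ 1 ∧
      pnt (str ℓ a fold (sv n τ) ε i) (str ℓ a fold (sv n τ) ε (i + 1)) r =
        pnt (str ℓ a fold (sv n τ) ε j) (str ℓ a fold (sv n τ) ε (j + 1)) r') ∨
      ∀ r r' : ℝ, 0 ≤ r → r ≤ 1 → 0 ≤ r' → r' ≤ 1 →
        ε * K < dist (pnt (str ℓ a fold (sv n τ) ε i) (str ℓ a fold (sv n τ) ε (i + 1)) r)
          (pnt (str ℓ a fold (sv n τ) ε j) (str ℓ a fold (sv n τ) ε (j + 1)) r')) :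
    Gap P := by
  have hD : Data P (len P) (jointAngle P) := data_of_simple hS
  obtain ⟨c, hcc, hc⟩ := exists_normal cP
  obtain ⟨a0, b0, φ, hON, -⟩ := exists_two_frames hcc hcc
  obtain ⟨ω, s1, hs1, eP⟩ := flat_repr hD hON hc
  rw [chain_flat hON hD.ang_nonneg hD.ang_le hs1] at eP
  have hp : Pair (cos ω • a0 + sin ω • b0) (-sin ω • a0 + cos ω • b0) :=
    ON.pair (ON_rot' hON ω) 1 0 (by simp) (by norm_num)
  have hn1 := sn_cases (θ := jointAngle P) hs1
  obtain ⟨s, hs⟩ : ∃ s, s = sn (jointAngle P) s1 := ⟨_, rfl⟩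
  rw [← hs] at eP hn1
  obtain ⟨e, he⟩ : ∃ e, e = cos ω • a0 + sin ω • b0 := ⟨_, rfl⟩
  obtain ⟨f, hf⟩ : ∃ f, f = -sin ω • a0 + cos ω • b0 := ⟨_, rfl⟩
  rw [← he, ← hf] at eP hp
  obtain ⟨τ, hτ⟩ := exists_sv (n := n) hn1
  have hv : ∀ k, k ≤ n → vx P k = vx P 0 + (str ℓ a fold (sv n τ) ε k).1 • e +
      (ε * (str ℓ a fold (sv n τ) ε k).2) • f := by
    intro k hk
    rw [str_congr hτ ε hk]
    exact vx_thin hε hT hsmall hp hn1 eP hk
  intro i j hij hj x hx y hy
  rw [mem_segment_iff'] at hx hy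
  obtain ⟨r, r0, r1, hr⟩ := hx
  obtain ⟨r', r0', r1', hr'⟩ := hy
  have hpt : ∀ (k : ℕ) (r : ℝ), k < n → vx P k + r • (vx P (k + 1) - vx P k) = vx P 0 +
      (pnt (str ℓ a fold (sv n τ) ε k) (str ℓ a fold (sv n τ) ε (k + 1)) r).1 • e +
      (ε * (pnt (str ℓ a fold (sv n τ) ε k) (str ℓ a fold (sv n τ) ε (k + 1)) r).2) • f := by
    intro k r hk
    conv_lhs => rw [hv k hk.le, hv (k + 1) hk]
    unfold pnt
    simp only [Prod.fst_add, Prod.snd_add, Prod.smul_fst, Prod.smul_snd, Prod.fst_sub,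
      Prod.snd_sub, smul_eq_mul]
    module
  rcases hA τ i j hij hj with ⟨q, q', q0, q1, q0', q1', hq⟩ | h
  · -- the chain is not simple
    exfalso
    have h1 := hpt i q (by omega)
    have h2 := hpt j q' (by omega)
    rw [hq] at h1
    have h3 := hS.2.1 ⟨i, by omega⟩ ⟨j, by omega⟩ hij
    rw [Set.disjoint_left] at h3
    have e1 : P (Fin.castSucc (⟨i, by omega⟩ : Fin n)) = vx P i := by
      rw [vx_of_le P (by omega)]; rfl
    have e2 : P (Fin.succ (⟨i, by omega⟩ : Fin n)) = vx P (i + 1) := by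
      rw [vx_of_le P (by omega)]; rfl
    have e3 : P (Fin.castSucc (⟨j, by omega⟩ : Fin n)) = vx P j := by
      rw [vx_of_le P (by omega)]; rfl
    have e4 : P (Fin.succ (⟨j, by omega⟩ : Fin n)) = vx P (j + 1) := by
      rw [vx_of_le P (by omega)]; rfl
    rw [e1, e2, e3, e4] at h3
    exact h3 (mem_segment_iff'.2 ⟨q, q0, q1, rfl⟩)
      (mem_segment_iff'.2 ⟨q', q0', q1', by rw [h1, h2]⟩)
  · have h1 := h r r' r0 r1 r0' r1'
    have hx' := hpt i r (by omega)
    have hy' := hpt j r' (by omega)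
    rw [← hr] at hx'
    rw [← hr'] at hy'
    obtain ⟨u, hu⟩ : ∃ u, u = pnt (str ℓ a fold (sv n τ) ε i)
      (str ℓ a fold (sv n τ) ε (i + 1)) r := ⟨_, rfl⟩
    obtain ⟨w, hw⟩ : ∃ w, w = pnt (str ℓ a fold (sv n τ) ε j)
      (str ℓ a fold (sv n τ) ε (j + 1)) r' := ⟨_, rfl⟩
    rw [← hu] at h1 hx'
    rw [← hw] at h1 hy'
    have h2 : dist x y ^ 2 = (u.1 - w.1) ^ 2 + (ε * (u.2 - w.2)) ^ 2 := by
      have h3 : x - y = (u.1 - w.1) • e + (ε * (u.2 - w.2)) • f := by
        rw [hx', hy']; module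
      rw [dist_eq_norm, h3, norm_comb hp]
    have h3 : ε * dist u w ≤ dist x y := by
      have h4 : (ε * dist u w) ^ 2 ≤ dist x y ^ 2 := by
        rw [h2, mul_pow]
        have h5 : dist u w = max |u.1 - w.1| |u.2 - w.2| := rfl
        have h7 : 0 ≤ 1 - ε ^ 2 := by nlinarith
        rcases max_cases |u.1 - w.1| |u.2 - w.2| with ⟨h6, -⟩ | ⟨h6, -⟩
        · rw [h5, h6, sq_abs]
          nlinarith [sq_nonneg (ε * (u.2 - w.2)), mul_nonneg h7 (sq_nonneg (u.1 - w.1))]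
        · rw [h5, h6, sq_abs]
          nlinarith [sq_nonneg (u.1 - w.1)]
      exact (abs_le_of_sq_le_sq' h4 dist_nonneg).2
    refine lt_of_lt_of_le (lt_of_le_of_lt ?_ (mul_lt_mul_of_pos_left h1 hε)) h3
    -- the left hand side
    have hL : ∑ k ∈ Icc i j, dist (vx P k) (vx P (k + 1)) ≤ ∑ k ∈ range n, ℓ k := by
      have h5 : ∑ k ∈ Icc i j, dist (vx P k) (vx P (k + 1)) = ∑ k ∈ Icc i j, ℓ k :=
        sum_congr rfl fun k hk => hT.1 k (by have := (mem_Icc.1 hk).2; omega)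
      rw [h5]
      refine sum_le_sum_of_subset_of_nonneg ?_ ?_
      · intro k hk
        have := mem_Icc.1 hk
        exact mem_range.2 (by omega)
      · intro k hk _
        rw [← hT.1 k (mem_range.1 hk)]
        exact dist_nonneg
    have hAA : ∑ k ∈ Ico i j, min (jointAngle P k) (π - jointAngle P k) ≤
        ε * ∑ k ∈ range (n - 1), a k := by
      have h5 : ∑ k ∈ Ico i j, min (jointAngle P k) (π - jointAngle P k) =
          ∑ k ∈ Ico i j, ε * a k := by
        refine sum_congr rfl fun k hk => ?_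
        have hk' := (mem_Ico.1 hk).2
        have h6 := hT.2 k (by omega)
        have h7 := hsmall k (by omega)
        rw [h6]
        split_ifs
        · exact min_eq_left (by linarith)
        · rw [min_eq_right (by linarith)]; ring
      rw [h5, mul_sum]
      refine sum_le_sum_of_subset_of_nonneg ?_ ?_
      · intro k hk
        have := mem_Ico.1 hk
        exact mem_range.2 (by omega)
      · intro k hk _
        exact (hsmall k (by have := mem_range.1 hk; omega)).1.le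
    have hA0 : 0 ≤ ∑ k ∈ Ico i j, min (jointAngle P k) (π - jointAngle P k) :=
      sum_nonneg fun k _ => le_min (hD.ang_nonneg k) (by linarith [hD.ang_le k])
    have hL0 : 0 ≤ ∑ k ∈ range n, ℓ k := sum_nonneg fun k hk => by
      rw [← hT.1 k (mem_range.1 hk)]; exact dist_nonneg
    calc (∑ k ∈ Icc i j, dist (vx P k) (vx P (k + 1))) *
          (∑ k ∈ Ico i j, min (jointAngle P k) (π - jointAngle P k)) ^ 2
        ≤ (∑ k ∈ range n, ℓ k) * (ε * ∑ k ∈ range (n - 1), a k) ^ 2 :=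
          mul_le_mul hL (pow_le_pow_left₀ hA0 hAA 2) (by positivity) hL0
      _ = ε * (ε * K) := by rw [hK]; ring

end

/-- **Theorem.** Generic thin chains are flat-state connected. -/
theorem generic_thin {n : ℕ} {ℓ a : ℕ → ℝ} {fold : ℕ → Bool} (ha : ∀ k, k + 2 ≤ n → 0 < a k)
    (hG : Generic n ℓ a fold) :
    ∃ ε₀ : ℝ, 0 < ε₀ ∧ ∀ ε : ℝ, 0 < ε → ε < ε₀ → ∀ P Q : Fin (n + 1) → E3,
      IsSimple P → IsSimple Q → Coplanar ℝ (Set.range P) → Coplanar ℝ (Set.range Q) →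
      IsThin ℓ a fold ε P → IsThin ℓ a fold ε Q → JoinedIn (freeSpace P) P Q := by
  obtain ⟨K, hK⟩ : ∃ K, K = (∑ k ∈ range n, ℓ k) * (∑ k ∈ range (n - 1), a k) ^ 2 := ⟨_, rfl⟩
  have h1 : ∀ᶠ ε in 𝓝[>] (0 : ℝ), ∀ τ : Fin n → Bool, ∀ i j : Fin n, i.val + 1 < j.val →
      ((∃ r r' : ℝ, 0 ≤ r ∧ r ≤ 1 ∧ 0 ≤ r' ∧ r' ≤ 1 ∧
      pnt (str ℓ a fold (sv n τ) ε i) (str ℓ a fold (sv n τ) ε (i + 1)) r =
        pnt (str ℓ a fold (sv n τ) ε j) (str ℓ a fold (sv n τ) ε (j + 1)) r') ∨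
      ∀ r r' : ℝ, 0 ≤ r → r ≤ 1 → 0 ≤ r' → r' ≤ 1 →
        ε * K < dist (pnt (str ℓ a fold (sv n τ) ε i) (str ℓ a fold (sv n τ) ε (i + 1)) r)
          (pnt (str ℓ a fold (sv n τ) ε j) (str ℓ a fold (sv n τ) ε (j + 1)) r')) := by
    rw [eventually_all]
    intro τ
    rw [eventually_all]
    intro i
    rw [eventually_all]
    intro j
    by_cases hij : i.val + 1 < j.val
    · exact (alternative hG (sv_cases n τ) hij j.isLt K).mono fun ε h _ => h
    · exact Eventually.of_forall fun ε h => absurd h hij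
  have h2 : ∀ᶠ ε in 𝓝[>] (0 : ℝ), ∀ k : Fin n, k.val + 2 ≤ n → ε * a k < π / 2 := by
    rw [eventually_all]
    intro k
    have h3 := tendsto_mul_zero (a k)
    exact (h3.eventually (Iio_mem_nhds (by positivity : (0 : ℝ) < π / 2))).mono fun ε h _ => h
  have h3 : ∀ᶠ ε in 𝓝[>] (0 : ℝ), ε < 1 :=
    nhdsWithin_le_nhds (Iio_mem_nhds one_pos)
  obtain ⟨ε₀, hε₀, hmem⟩ := mem_nhdsGT_iff_exists_Ioo_subset.1 (h1.and (h2.and h3))
  refine ⟨ε₀, hε₀, ?_⟩
  intro ε he0 he1 P Q hP hQ cP cQ tP tQ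
  obtain ⟨k1, k2, k3⟩ := hmem ⟨he0, he1⟩
  have hsmall : ∀ k, k + 2 ≤ n → 0 < ε * a k ∧ ε * a k < π / 2 := fun k hk =>
    ⟨mul_pos he0 (ha k hk), k2 ⟨k, by omega⟩ hk⟩
  have gap : ∀ R : Fin (n + 1) → E3, IsSimple R → Coplanar ℝ (Set.range R) →
      IsThin ℓ a fold ε R → Gap R := fun R hR cR tR =>
    gap_thin he0 k3.le tR hsmall hK hR cR fun τ i j hij hj =>
      k1 τ ⟨i, by omega⟩ ⟨j, hj⟩ hij
  refine main hP cP cQ ⟨hQ, ?_, ?_⟩ (gap P hP cP tP) (gap Q hQ cQ tQ)
  · intro i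
    have e1 := tP.1 i.val i.isLt
    have e2 := tQ.1 i.val i.isLt
    rw [vx_of_le _ i.isLt.le, vx_of_le _ i.isLt] at e1 e2
    exact e2.trans e1.symm
  · intro i j hij
    have hj := j.isLt
    have e1 := tP.2 i.val (by omega)
    have e2 := tQ.2 i.val (by omega)
    rw [← (data_of_simple hP).ang i j hij] at e1
    rw [← (data_of_simple hQ).ang i j hij] at e2
    exact e2.trans e1.symm

end Pool.Agent.Thin
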