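import Pool.Agent.Thin.Mix

/-!
# Chains given by products of rotations
-/

set_option autoImplicit false

namespace Pool.Agent.Thin

open Real Finset Pool.Agent.Lib_helper54.Flat

/-- The vertices of the chain with the signed lengths `ρ k`, the turning vectors `n k` and the
turning angles `α k`. -/
noncomputable def vtt (p e : E3) (n : ℕ → E3) (α ρ : ℕ → ℝ) : ℕ → E3
  | 0 => p
  | k + 1 => vtt p e n α ρ k + ρ k • frm e n α k e

theorem vtt_succ (p e : E3) (n : ℕ → E3) (α ρ : ℕ → ℝ) (k : ℕ) :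
    vtt p e n α ρ (k + 1) = vtt p e n α ρ k + ρ k • frm e n α k e := rfl

theorem vtt_sub (p e : E3) (n : ℕ → E3) (α ρ : ℕ → ℝ) (i m : ℕ) :
    vtt p e n α ρ (i + m) - vtt p e n α ρ i =
      frm e n α i (∑ k ∈ range m, ρ (i + k) •
        frm e (fun j => n (i + j)) (fun j => α (i + j)) k e) := by
  induction m with
  | zero => simp
  | succ m ih =>
    rw [← Nat.add_assoc, vtt_succ, sum_range_succ, map_add, ← ih, map_smul, frm_add]
    abel

/-- The coefficients of the chord between the point with parameter `s` of the link `i` and the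
point with parameter `s'` of the link `i + m`. -/
noncomputable def cf (ρ : ℕ → ℝ) (i m : ℕ) (s s' : ℝ) (k : ℕ) : ℝ :=
  if k = 0 then (1 - s) * ρ i else if k = m then s' * ρ (i + m) else ρ (i + k)

theorem sum_cf {M : Type} [AddCommGroup M] [Module ℝ M] (ρ : ℕ → ℝ) (i m : ℕ) (hm : 1 ≤ m)
    (s s' : ℝ) (w : ℕ → M) :
    ∑ k ∈ range (m + 1), cf ρ i m s s' k • w k =
      ∑ k ∈ range m, ρ (i + k) • w k - (s * ρ i) • w 0 + (s' * ρ (i + m)) • w m := by
  obtain ⟨m, rfl⟩ : ∃ m', m = m' + 1 := ⟨m - 1, by omega⟩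
  rw [sum_range_succ, sum_range_succ', sum_range_succ' _ m]
  have h1 : ∀ k ∈ range m, cf ρ i (m + 1) s s' (k + 1) • w (k + 1) =
      ρ (i + (k + 1)) • w (k + 1) := by
    intro k hk
    have hk' := mem_range.1 hk
    unfold cf
    rw [if_neg (by omega), if_neg (by omega)]
  rw [sum_congr rfl h1]
  have h2 : cf ρ i (m + 1) s s' 0 = (1 - s) * ρ i := by unfold cf; rw [if_pos rfl]
  have h3 : cf ρ i (m + 1) s s' (m + 1) = s' * ρ (i + (m + 1)) := by
    unfold cf; rw [if_neg (by omega), if_pos rfl]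
  rw [h2, h3, Nat.add_zero]
  module

theorem abs_cf_le (ρ : ℕ → ℝ) (i m : ℕ) {s s' : ℝ} (h0 : 0 ≤ s) (h1 : s ≤ 1) (h0' : 0 ≤ s')
    (h1' : s' ≤ 1) (k : ℕ) : |cf ρ i m s s' k| ≤ |ρ (i + k)| := by
  unfold cf
  split_ifs with h2 h3
  · rw [h2, Nat.add_zero, abs_mul, abs_of_nonneg (by linarith : (0 : ℝ) ≤ 1 - s)]
    nlinarith [abs_nonneg (ρ i)]
  · rw [h3, abs_mul, abs_of_nonneg h0']
    nlinarith [abs_nonneg (ρ (i + m))]
  · exact le_rfl

/-- The chord. -/
theorem chord_eq (p e : E3) (n : ℕ → E3) (α ρ : ℕ → ℝ) (i m : ℕ) (hm : 1 ≤ m) (s s' : ℝ) :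
    (vtt p e n α ρ (i + m) + s' • (ρ (i + m) • frm e n α (i + m) e)) -
      (vtt p e n α ρ i + s • (ρ i • frm e n α i e)) =
      frm e n α i (∑ k ∈ range (m + 1), cf ρ i m s s' k •
        frm e (fun j => n (i + j)) (fun j => α (i + j)) k e) := by
  have h1 := vtt_sub p e n α ρ i m
  rw [sum_cf ρ i m hm, map_add, map_sub, ← h1, map_smul, map_smul, frm_zero, frm_add]
  module

theorem mem_segment_iff' {x y z : E3} : z ∈ segment ℝ x y ↔
    ∃ s : ℝ, 0 ≤ s ∧ s ≤ 1 ∧ z = x + s • (y - x) := by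
  rw [segment_eq_image']
  constructor
  · rintro ⟨s, ⟨h0, h1⟩, rfl⟩
    exact ⟨s, h0, h1, rfl⟩
  · rintro ⟨s, h0, h1, rfl⟩
    exact ⟨s, ⟨h0, h1⟩, rfl⟩

/-- Two segments with a common end point at which the angle is not zero. -/
theorem adj {A B C : E3} (h : EuclideanGeometry.angle A B C ≠ 0) :
    segment ℝ A B ∩ segment ℝ B C ⊆ {B} := by
  rintro z ⟨h1, h2⟩
  rw [segment_symm] at h1
  rw [mem_segment_iff'] at h1 h2
  obtain ⟨s, s0, s1, hs⟩ := h1
  obtain ⟨r, r0, r1, hr⟩ := h2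
  rw [Set.mem_singleton_iff]
  by_contra hne
  apply h
  have hs0 : s ≠ 0 := by
    rintro rfl
    apply hne
    rw [hs, zero_smul, add_zero]
  have hr0 : r ≠ 0 := by
    rintro rfl
    apply hne
    rw [hr, zero_smul, add_zero]
  have hAB : A - B ≠ 0 := by
    intro h0
    apply hne
    rw [hs, h0, smul_zero, add_zero]
  have h3 : s • (A - B) = r • (C - B) := by
    have := hs.symm.trans hr
    exact add_left_cancel this
  unfold EuclideanGeometry.angle
  rw [InnerProductGeometry.angle_eq_zero_iff, vsub_eq_sub, vsub_eq_sub]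
  refine ⟨hAB, r⁻¹ * s, by positivity, ?_⟩
  rw [mul_smul, h3, smul_smul, inv_mul_cancel₀ hr0, one_smul]

/-- The sign pattern: the sign changes at the joints with angle at most `π/2`. -/
noncomputable def sg (θ : ℕ → ℝ) : ℕ → ℝ
  | 0 => 1
  | k + 1 => if θ k ≤ π / 2 then -sg θ k else sg θ k

theorem sg_cases (θ : ℕ → ℝ) (k : ℕ) : sg θ k = 1 ∨ sg θ k = -1 := by
  induction k with
  | zero => exact Or.inl rfl
  | succ k ih =>
    unfold sg
    split_ifs
    · rcases ih with h | h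
      · right; rw [h]
      · left; rw [h, neg_neg]
    · exact ih

theorem sg_mul_self (θ : ℕ → ℝ) (k : ℕ) : sg θ k * sg θ k = 1 := by
  rcases sg_cases θ k with h | h <;> rw [h] <;> norm_num

/-- The turning angles. -/
noncomputable def al (θ : ℕ → ℝ) (k : ℕ) : ℝ := min (θ k) (π - θ k)

theorem al_nonneg {θ : ℕ → ℝ} (h0 : ∀ k, 0 ≤ θ k) (h1 : ∀ k, θ k ≤ π) (k : ℕ) : 0 ≤ al θ k :=
  le_min (h0 k) (by linarith [h1 k])

theorem sg_cos (θ : ℕ → ℝ) (k : ℕ) :
    -(sg θ k * sg θ (k + 1) * cos (al θ k)) = cos (θ k) := by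
  have h1 := sg_mul_self θ k
  have h2 : sg θ (k + 1) = if θ k ≤ π / 2 then -sg θ k else sg θ k := rfl
  rw [h2]
  unfold al
  split_ifs with h
  · rw [min_eq_left (by linarith)]
    linear_combination (cos (θ k)) * h1
  · push Not at h
    rw [min_eq_right (by linarith), cos_pi_sub]
    linear_combination (cos (θ k)) * h1

section

variable {n : ℕ} {P : Fin (n + 1) → E3} {l θ : ℕ → ℝ}

/-- Signed lengths. -/
noncomputable def rh (l θ : ℕ → ℝ) (k : ℕ) : ℝ := l k * sg θ k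

theorem abs_rh (hD : Data P l θ) (k : ℕ) : |rh l θ k| = l k := by
  unfold rh
  rw [abs_mul, abs_of_pos (hD.pos k)]
  rcases sg_cases θ k with h | h <;> rw [h] <;> simp

theorem norm_dir {e : E3} {nn : ℕ → E3} (h : ∀ k, Pair e (nn k)) (α : ℕ → ℝ) (k : ℕ) :
    ‖frm e nn α k e‖ = 1 := by
  rw [frm_norm h]
  have := (h 0).ee
  rw [real_inner_self_eq_norm_sq] at this
  exact (pow_eq_one_iff_of_nonneg (norm_nonneg _) two_ne_zero).1 this

theorem dist_vtt (hD : Data P l θ) {p e : E3} {nn : ℕ → E3} (h : ∀ k, Pair e (nn k)) (k : ℕ) :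
    dist (vtt p e nn (al θ) (rh l θ) k) (vtt p e nn (al θ) (rh l θ) (k + 1)) = l k := by
  rw [vtt_succ, dist_self_add_right, norm_smul, norm_dir h, mul_one, Real.norm_eq_abs,
    abs_rh hD]

theorem angle_vtt (hD : Data P l θ) {p e : E3} {nn : ℕ → E3} (h : ∀ k, Pair e (nn k)) (k : ℕ) :
    EuclideanGeometry.angle (vtt p e nn (al θ) (rh l θ) k) (vtt p e nn (al θ) (rh l θ) (k + 1))
      (vtt p e nn (al θ) (rh l θ) (k + 2)) = θ k := by
  unfold EuclideanGeometry.angle InnerProductGeometry.angle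
  rw [vsub_eq_sub, vsub_eq_sub]
  have h1 : vtt p e nn (al θ) (rh l θ) k - vtt p e nn (al θ) (rh l θ) (k + 1) =
      (-(rh l θ k)) • frm e nn (al θ) k e := by
    rw [vtt_succ]; module
  have h2 : vtt p e nn (al θ) (rh l θ) (k + 2) - vtt p e nn (al θ) (rh l θ) (k + 1) =
      (rh l θ (k + 1)) • frm e nn (al θ) (k + 1) e := by
    rw [vtt_succ p e nn (al θ) (rh l θ) (k + 1)]; module
  rw [h1, h2, norm_smul, norm_smul, norm_dir h, norm_dir h, mul_one, mul_one, norm_neg,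
    Real.norm_eq_abs, Real.norm_eq_abs, abs_rh hD, abs_rh hD, inner_smul_left, inner_smul_right,
    frm_succ, frm_inner h, rot_fst (h k), inner_add_right, inner_smul_right, inner_smul_right,
    (h k).ee, (h k).en]
  have h3 := hD.pos k
  have h4 := hD.pos (k + 1)
  have h5 : (starRingEnd ℝ) (-rh l θ k) * (rh l θ (k + 1) * (cos (al θ k) * 1 +
      sin (al θ k) * 0)) / (l k * l (k + 1)) = cos (θ k) := by
    rw [RCLike.conj_to_real, ← sg_cos θ k]
    unfold rh
    field_simp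
    ring
  rw [h5, arccos_cos (hD.ang_nonneg k) (hD.ang_le k)]

end

end Pool.Agent.Thin
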