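import Pool.Agent.Lib_helper54.Flat.Defs

/-!
# Definitions for the theorem on thin chains
-/

set_option autoImplicit false

namespace Pool.Agent.Thin

open Real Finset Pool.Agent.Lib_helper54.Flat

/-- Any two points of the links number `i` and `j`, `i + 1 < j`, have distance more than
`L * A ^ 2`, where `L` is the total length of the links from `i` to `j` and `A` is the sum of
`min θ (π - θ)` over the joint angles `θ` between them. -/
def Gap {n : ℕ} (P : Fin (n + 1) → E3) : Prop :=
  ∀ i j : ℕ, i + 1 < j → j < n →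
    ∀ x ∈ segment ℝ (vx P i) (vx P (i + 1)), ∀ y ∈ segment ℝ (vx P j) (vx P (j + 1)),
      (∑ k ∈ Icc i j, dist (vx P k) (vx P (k + 1))) *
        (∑ k ∈ Ico i j, min (jointAngle P k) (π - jointAngle P k)) ^ 2 < dist x y

/-- The direction (to the right or to the left) of the links: it changes at the folded joints. -/
def side (fold : ℕ → Bool) : ℕ → ℝ
  | 0 => 1
  | k + 1 => if fold k = true then -side fold k else side fold k

/-- The vertices of the stretched limit polygon of the thin flat chain with the turns `s`: the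
link `m` is the vector `± ℓ m • (1, ∑ j < m, s j * a j)`. -/
noncomputable def lim (ℓ a : ℕ → ℝ) (fold : ℕ → Bool) (s : ℕ → ℝ) (k : ℕ) : ℝ × ℝ :=
  (∑ m ∈ range k, side fold m * ℓ m,
    ∑ m ∈ range k, side fold m * ℓ m * ∑ j ∈ range m, s j * a j)

/-- For every choice of the turns, no vertex of the limit polygon lies on a link that does not end
there. -/
def Generic (n : ℕ) (ℓ a : ℕ → ℝ) (fold : ℕ → Bool) : Prop :=
  ∀ s : ℕ → ℝ, (∀ k, s k = 1 ∨ s k = -1) → ∀ v i : ℕ, v ≤ n → i < n → v ≠ i → v ≠ i + 1 →
    lim ℓ a fold s v ∉ segment ℝ (lim ℓ a fold s i) (lim ℓ a fold s (i + 1))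

/-- The configuration `P` has the link lengths `ℓ k`, and the joint angles `ε a k` at the folded
joints and `π - ε a k` at the other joints. -/
def IsThin {n : ℕ} (ℓ a : ℕ → ℝ) (fold : ℕ → Bool) (ε : ℝ) (P : Fin (n + 1) → E3) : Prop :=
  (∀ k, k < n → dist (vx P k) (vx P (k + 1)) = ℓ k) ∧
    ∀ k, k + 2 ≤ n → jointAngle P k = if fold k = true then ε * a k else π - ε * a k

end Pool.Agent.Thin
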