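import Pool.Agent.Thin.Path
import Pool.Agent.Thin.Defs

/-!
# Flat thin chains are connected
-/

set_option autoImplicit false

namespace Pool.Agent.Thin

open Real Finset Pool.Agent.Lib_helper54.Flat

section

variable {n : ℕ} {P : Fin (n + 1) → E3} {l θ : ℕ → ℝ}

theorem vx_cfg {p e : E3} {nn : ℕ → E3} {α ρ : ℕ → ℝ} {k : ℕ} (hk : k ≤ n) :
    vx (cfg n p e nn α ρ) k = vtt p e nn α ρ k := by
  rw [vx_of_le _ hk]
  rfl

theorem gap_flat (hD : Data P l θ) (hg : Gap P) {p e f : E3} (h : Pair e f) {s : ℕ → ℝ}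
    (hs : ∀ k, s k = 1 ∨ s k = -1)
    (hP : P = cfg n p e (fun k => s k • f) (al θ) (rh l θ)) {i m : ℕ} (hm : 2 ≤ m)
    (hi : i + m < n) {r r' : ℝ} (r0 : 0 ≤ r) (r1 : r ≤ 1) (r0' : 0 ≤ r') (r1' : r' ≤ 1) :
    ((∑ k ∈ range (m + 1), l (i + k)) * (∑ k ∈ range m, al θ (i + k)) ^ 2) ^ 2 <
      flatSq (fun k => s (i + k)) (fun k => al θ (i + k)) (cf (rh l θ) i m r r') m := by
  have hpair : ∀ k, Pair e (s k • f) := by
    intro k
    refine ⟨h.ee, ?_, ?_⟩
    · rw [inner_smul_left, inner_smul_right, h.nn]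
      rcases hs k with h1 | h1 <;> rw [h1] <;> simp
    · rw [inner_smul_right, h.en, mul_zero]
  have hv : ∀ k, k ≤ n → vx P k = vtt p e (fun k => s k • f) (al θ) (rh l θ) k := by
    intro k hk
    rw [hP]
    exact vx_cfg hk
  have h1 := hg i (i + m) (by omega) hi
    (vx P i + r • (vx P (i + 1) - vx P i)) (mem_segment_iff'.2 ⟨r, r0, r1, rfl⟩)
    (vx P (i + m) + r' • (vx P (i + m + 1) - vx P (i + m)))
    (mem_segment_iff'.2 ⟨r', r0', r1', rfl⟩)
  have hL : ∑ k ∈ Icc i (i + m), dist (vx P k) (vx P (k + 1)) =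
      ∑ k ∈ range (m + 1), l (i + k) := by
    have h2 : Icc i (i + m) = Ico i (i + m + 1) := by
      ext k; simp only [mem_Icc, mem_Ico]; omega
    rw [h2, sum_Ico_eq_sum_range, show i + m + 1 - i = m + 1 by omega]
    refine sum_congr rfl fun k hk => ?_
    have := mem_range.1 hk
    exact hD.len' (by omega)
  have hA : ∑ k ∈ Ico i (i + m), min (jointAngle P k) (π - jointAngle P k) =
      ∑ k ∈ range m, al θ (i + k) := by
    rw [sum_Ico_eq_sum_range, Nat.add_sub_cancel_left]
    refine sum_congr rfl fun k hk => ?_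
    have := mem_range.1 hk
    have h3 : jointAngle P (i + k) = θ (i + k) := hD.ang' (by omega)
    rw [h3]
    rfl
  rw [hL, hA, dist_comm, dist_eq_norm, hv i (by omega), hv (i + 1) (by omega),
    hv (i + m) (by omega), hv (i + m + 1) (by omega), vtt_succ p e _ _ _ i,
    vtt_succ p e _ _ _ (i + m), add_sub_cancel_left, add_sub_cancel_left,
    chord_eq p e _ _ _ i m (by omega), frm_norm hpair] at h1
  rw [← norm_flat h (fun k => hs (i + k)) (fun k => al θ (i + k)) (cf (rh l θ) i m r r') m]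
  have hL0 : 0 ≤ ∑ k ∈ range (m + 1), l (i + k) := sum_nonneg fun k _ => (hD.pos _).le
  exact pow_lt_pow_left₀ h1 (by positivity) two_ne_zero

theorem Alt.shift {x y : ℕ → ℝ} (h : Alt x y) (i : ℕ) :
    Alt (fun k => x (i + k)) (fun k => y (i + k)) := fun k => h (i + k)

/-- The configurations of the motion are in the free space. -/
theorem cfg_mem (hD : Data P l θ) (hpos : ∀ k, k + 2 ≤ n → 0 < θ k) {x y : ℕ → ℝ}
    (hxy : Alt x y)
    (gP : ∀ i m : ℕ, 2 ≤ m → i + m < n → ∀ r r' : ℝ, 0 ≤ r → r ≤ 1 → 0 ≤ r' → r' ≤ 1 →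
      ((∑ k ∈ range (m + 1), l (i + k)) * (∑ k ∈ range m, al θ (i + k)) ^ 2) ^ 2 <
      flatSq (fun k => x (i + k) + y (i + k)) (fun k => al θ (i + k))
        (cf (rh l θ) i m r r') m)
    (gQ : ∀ i m : ℕ, 2 ≤ m → i + m < n → ∀ r r' : ℝ, 0 ≤ r → r ≤ 1 → 0 ≤ r' → r' ≤ 1 →
      ((∑ k ∈ range (m + 1), l (i + k)) * (∑ k ∈ range m, al θ (i + k)) ^ 2) ^ 2 <
      flatSq (fun k => x (i + k) - y (i + k)) (fun k => al θ (i + k))
        (cf (rh l θ) i m r r') m)
    (p : E3) {e f g : E3} (h : ON e f g) (t : ℝ) :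
    cfg n p e (nvec f g x y t) (al θ) (rh l θ) ∈ freeSpace P := by
  have hpair : ∀ k, Pair e (nvec f g x y t k) := fun k => nvec_pair h hxy t k
  refine ⟨⟨?_, ?_, ?_⟩, ?_, ?_⟩
  · intro i he
    have h1 := dist_vtt hD (p := p) hpair i.val
    have h2 : vtt p e (nvec f g x y t) (al θ) (rh l θ) i.val =
        vtt p e (nvec f g x y t) (al θ) (rh l θ) (i.val + 1) := he
    rw [← h2, dist_self] at h1
    exact absurd h1 (hD.pos _).ne
  · intro i j hij
    rw [Set.disjoint_left]
    intro z hz1 hz2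
    obtain ⟨m, hm⟩ : ∃ m, j.val = i.val + m := ⟨j.val - i.val, by omega⟩
    have hm2 : 2 ≤ m := by omega
    have hj := j.isLt
    rw [mem_segment_iff'] at hz1 hz2
    obtain ⟨r, r0, r1, hr⟩ := hz1
    obtain ⟨r', r0', r1', hr'⟩ := hz2
    have e1 : cfg n p e (nvec f g x y t) (al θ) (rh l θ) i.castSucc =
        vtt p e (nvec f g x y t) (al θ) (rh l θ) i.val := rfl
    have e2 : cfg n p e (nvec f g x y t) (al θ) (rh l θ) i.succ =
        vtt p e (nvec f g x y t) (al θ) (rh l θ) (i.val + 1) := rfl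
    have e3 : cfg n p e (nvec f g x y t) (al θ) (rh l θ) j.castSucc =
        vtt p e (nvec f g x y t) (al θ) (rh l θ) (i.val + m) := by rw [← hm]; rfl
    have e4 : cfg n p e (nvec f g x y t) (al θ) (rh l θ) j.succ =
        vtt p e (nvec f g x y t) (al θ) (rh l θ) (i.val + m + 1) := by rw [← hm]; rfl
    rw [e1, e2, vtt_succ p e _ _ _ i.val, add_sub_cancel_left] at hr
    rw [e3, e4, vtt_succ p e _ _ _ (i.val + m), add_sub_cancel_left] at hr'
    have h1 := chord_eq p e (nvec f g x y t) (al θ) (rh l θ) i.val m (by omega) r r'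
    rw [← hr, ← hr', sub_self] at h1
    have h2 : ∑ k ∈ range (m + 1), cf (rh l θ) i.val m r r' k •
        frm e (fun j => nvec f g x y t (i.val + j)) (fun j => al θ (i.val + j)) k e = 0 := by
      have h3 := frm_norm hpair (al θ) i.val (∑ k ∈ range (m + 1), cf (rh l θ) i.val m r r' k •
        frm e (fun j => nvec f g x y t (i.val + j)) (fun j => al θ (i.val + j)) k e)
      rw [← h1, norm_zero] at h3
      exact norm_eq_zero.1 h3.symm
    have hL : ∑ k ∈ range (m + 1), |cf (rh l θ) i.val m r r' k| ≤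
        ∑ k ∈ range (m + 1), l (i.val + k) := by
      refine sum_le_sum fun k _ => ?_
      rw [← abs_rh hD (i.val + k)]
      exact abs_cf_le (rh l θ) i.val m r0 r1 r0' r1' k
    have h4 := mix h (hxy.shift i.val)
      (fun k => al_nonneg hD.ang_nonneg hD.ang_le (i.val + k)) m hL t h2
    rcases h4 with h4 | h4
    · exact absurd h4 (not_le.2 (gP i.val m hm2 (by omega) r r' r0 r1 r0' r1'))
    · exact absurd h4 (not_le.2 (gQ i.val m hm2 (by omega) r r' r0 r1 r0' r1'))
  · intro i j hij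
    have hj := j.isLt
    have h1 := angle_vtt hD (p := p) hpair i.val
    have h2 := hpos i.val (by omega)
    have e4 : cfg n p e (nvec f g x y t) (al θ) (rh l θ) j.succ =
        vtt p e (nvec f g x y t) (al θ) (rh l θ) (i.val + 2) := by
      change vtt p e (nvec f g x y t) (al θ) (rh l θ) (j.val + 1) = _
      rw [hij]
    have e3 : cfg n p e (nvec f g x y t) (al θ) (rh l θ) j.castSucc =
        vtt p e (nvec f g x y t) (al θ) (rh l θ) (i.val + 1) := by
      change vtt p e (nvec f g x y t) (al θ) (rh l θ) j.val = _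
      rw [hij]
    rw [e3, e4]
    apply adj (A := vtt p e (nvec f g x y t) (al θ) (rh l θ) i.val)
      (B := vtt p e (nvec f g x y t) (al θ) (rh l θ) (i.val + 1))
    rw [h1]
    exact h2.ne'
  · intro i
    rw [hD.len i]
    exact dist_vtt hD hpair i.val
  · intro i j hij
    rw [hD.ang i j hij, ← angle_vtt hD (p := p) hpair i.val]
    have e4 : cfg n p e (nvec f g x y t) (al θ) (rh l θ) j.succ =
        vtt p e (nvec f g x y t) (al θ) (rh l θ) (i.val + 2) := by
      change vtt p e (nvec f g x y t) (al θ) (rh l θ) (j.val + 1) = _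
      rw [hij]
    rw [e4]
    rfl

/-- **Theorem.** Two flat configurations with large gaps are connected. -/
theorem main {Q : Fin (n + 1) → E3} (hP : IsSimple P) (cP : Coplanar ℝ (Set.range P))
    (cQ : Coplanar ℝ (Set.range Q)) (hQ : Q ∈ freeSpace P) (gP : Gap P) (gQ : Gap Q) :
    JoinedIn (freeSpace P) P Q := by
  obtain ⟨l, hl⟩ : ∃ l, l = len P := ⟨_, rfl⟩
  obtain ⟨θ, hθ⟩ : ∃ θ, θ = jointAngle P := ⟨_, rfl⟩
  have hD : Data P l θ := by rw [hl, hθ]; exact data_of_simple hP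
  have hDQ : Data Q l θ := ⟨hD.pos, fun i => by rw [hQ.2.1 i, hD.len i],
    fun i j hij => by rw [hQ.2.2 i j hij, hD.ang i j hij], hD.ang_nonneg, hD.ang_le⟩
  obtain ⟨c, hcc, hc⟩ := exists_normal cP
  obtain ⟨c', hcc', hc'⟩ := exists_normal cQ
  obtain ⟨a, b, φ, hON, rfl⟩ := exists_two_frames hcc hcc'
  have hON' := ON_rot hON φ
  obtain ⟨ω, s1, hs1, eP⟩ := flat_repr hD hON hc
  obtain ⟨ω', s2, hs2, eQ⟩ := flat_repr hDQ hON' hc'
  rw [chain_flat hON hD.ang_nonneg hD.ang_le hs1] at eP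
  rw [chain_flat hON' hD.ang_nonneg hD.ang_le hs2] at eQ
  have hn1 := sn_cases (θ := θ) hs1
  have hn2 := sn_cases (θ := θ) hs2
  obtain ⟨x, hx⟩ : ∃ x : ℕ → ℝ, x = fun k => (sn θ s1 k + sn θ s2 k) / 2 := ⟨_, rfl⟩
  obtain ⟨y, hy⟩ : ∃ y : ℕ → ℝ, y = fun k => (sn θ s1 k - sn θ s2 k) / 2 := ⟨_, rfl⟩
  have hx1 : ∀ k, x k + y k = sn θ s1 k := fun k => by rw [hx, hy]; ring
  have hx2 : ∀ k, x k - y k = sn θ s2 k := fun k => by rw [hx, hy]; ring
  have hxy : Alt x y := by
    intro k
    rw [hx, hy]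
    rcases hn1 k with h1 | h1 <;> rcases hn2 k with h2 | h2 <;> simp only [h1, h2] <;> norm_num
  have hp1 : Pair (cos ω • a + sin ω • b) (-sin ω • a + cos ω • b) :=
    ON.pair (ON_rot' hON ω) 1 0 (by simp) (by norm_num)
  have hp2 : Pair (cos ω' • a + sin ω' • (cos φ • b + sin φ • c))
      (-sin ω' • a + cos ω' • (cos φ • b + sin φ • c)) :=
    ON.pair (ON_rot' hON' ω') 1 0 (by simp) (by norm_num)
  have key := fun (p : E3) {e f g : E3} (h : ON e f g) (t : ℝ) =>
    cfg_mem hD (fun k hk => theta_pos hD hP hk) hxy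
      (fun i m hm hi r r' r0 r1 r0' r1' => by
        have := gap_flat hD gP hp1 hn1 eP hm hi r0 r1 r0' r1'
        simpa only [hx1] using this)
      (fun i m hm hi r r' r0 r1 r0' r1' => by
        have := gap_flat hDQ gQ hp2 hn2 eQ hm hi r0 r1 r0' r1'
        simpa only [hx2] using this) p h t
  -- the motion
  obtain ⟨p1, hp1'⟩ : ∃ p1, p1 = vx P 0 := ⟨_, rfl⟩
  obtain ⟨p2, hp2'⟩ : ∃ p2, p2 = vx Q 0 := ⟨_, rfl⟩
  rw [← hp1'] at eP
  rw [← hp2'] at eQ
  let pt : unitInterval → E3 := fun t => (1 - (t : ℝ)) • p1 + (t : ℝ) • p2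
  let bt : unitInterval → E3 := fun t => cos (t * φ) • b + sin (t * φ) • c
  let ct : unitInterval → E3 := fun t => -sin (t * φ) • b + cos (t * φ) • c
  let wt : unitInterval → ℝ := fun t => (1 - (t : ℝ)) * ω + (t : ℝ) * ω'
  let et : unitInterval → E3 := fun t => cos (wt t) • a + sin (wt t) • bt t
  let ft : unitInterval → E3 := fun t => -sin (wt t) • a + cos (wt t) • bt t
  have hONt : ∀ t, ON (et t) (ft t) (ct t) := fun t => ON_rot' (ON_rot hON (t * φ)) (wt t)
  have cpt : Continuous pt := by fun_prop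
  have cbt : Continuous bt := by fun_prop
  have cct : Continuous ct := by fun_prop
  have cwt : Continuous wt := by fun_prop
  have cet : Continuous et :=
    ((continuous_cos.comp cwt).smul continuous_const).add ((continuous_sin.comp cwt).smul cbt)
  have cft : Continuous ft :=
    ((continuous_sin.comp cwt).neg.smul continuous_const).add ((continuous_cos.comp cwt).smul cbt)
  have cnt : ∀ k, Continuous fun t : unitInterval => nvec (ft t) (ct t) x y (π * t) k := by
    intro k
    unfold nvec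
    have c1 : Continuous fun t : unitInterval => cos (π * (t : ℝ)) := by fun_prop
    have c2 : Continuous fun t : unitInterval => sin (π * (t : ℝ)) := by fun_prop
    have c3 : Continuous fun t : unitInterval =>
        cos (π * (t : ℝ)) • ft t + sin (π * (t : ℝ)) • ct t := (c1.smul cft).add (c2.smul cct)
    exact (cft.const_smul (x k)).add (c3.const_smul (y k))
  refine ⟨⟨⟨fun t => cfg n (pt t) (et t) (nvec (ft t) (ct t) x y (π * t)) (al θ) (rh l θ), ?_⟩,
    ?_, ?_⟩, ?_⟩
  · rw [continuous_pi_iff]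
    intro i
    exact continuous_vtt (al θ) (rh l θ) cpt cet cnt i.val
  · change cfg n (pt 0) (et 0) (nvec (ft 0) (ct 0) x y (π * ((0 : unitInterval) : ℝ))) (al θ)
      (rh l θ) = P
    rw [eP]
    have q1 : pt 0 = p1 := by simp [pt]
    have q2 : bt 0 = b := by simp [bt]
    have q3 : wt 0 = ω := by simp [wt]
    have q4 : et 0 = cos ω • a + sin ω • b := by simp only [et, q2, q3]
    have q5 : ft 0 = -sin ω • a + cos ω • b := by simp only [ft, q2, q3]
    have q6 : nvec (ft 0) (ct 0) x y (π * ((0 : unitInterval) : ℝ)) =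
        fun k => sn θ s1 k • (-sin ω • a + cos ω • b) := by
      funext k
      unfold nvec
      rw [q5, ← hx1 k]
      simp only [Set.Icc.coe_zero, mul_zero, cos_zero, sin_zero, one_smul, zero_smul,
        add_zero, add_smul]
    rw [q1, q4, q6]
  · change cfg n (pt 1) (et 1) (nvec (ft 1) (ct 1) x y (π * ((1 : unitInterval) : ℝ))) (al θ)
      (rh l θ) = Q
    rw [eQ]
    have q1 : pt 1 = p2 := by simp [pt]
    have q2 : bt 1 = cos φ • b + sin φ • c := by simp [bt]
    have q3 : wt 1 = ω' := by simp [wt]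
    have q4 : et 1 = cos ω' • a + sin ω' • (cos φ • b + sin φ • c) := by simp only [et, q2, q3]
    have q5 : ft 1 = -sin ω' • a + cos ω' • (cos φ • b + sin φ • c) := by
      simp only [ft, q2, q3]
    have q6 : nvec (ft 1) (ct 1) x y (π * ((1 : unitInterval) : ℝ)) =
        fun k => sn θ s2 k • (-sin ω' • a + cos ω' • (cos φ • b + sin φ • c)) := by
      funext k
      unfold nvec
      rw [q5, ← hx2 k]
      simp only [Set.Icc.coe_one, mul_one, cos_pi, sin_pi]
      module
    rw [q1, q4, q6]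
  · intro t
    exact key (pt t) (hONt t) (π * t)

end

end Pool.Agent.Thin
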