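import Pool.Agent.Thin.Rot
import Pool.Agent.Lib_helper54.Flat.Main

/-!
# Simultaneous rotation of the differing turns

The turning vectors `n k = x k • f + y k • (cos t • f + sin t • g)` interpolate between the flat
chains with the turning vectors `(x k + y k) • f` and `(x k - y k) • f`.
-/

set_option autoImplicit false

namespace Pool.Agent.Thin

open Real Finset Pool.Agent.Lib_helper54.Flat

theorem ON.pair {e f g : E3} (h : ON e f g) {n : E3} (x y : ℝ) (hn : n = x • f + y • g)
    (hxy : x ^ 2 + y ^ 2 = 1) : Pair e n := by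
  have e1 : e = (1 : ℝ) • e + (0 : ℝ) • f + (0 : ℝ) • g := by simp
  have e2 : n = (0 : ℝ) • e + x • f + y • g := by rw [hn]; simp
  refine ⟨h.aa, ?_, ?_⟩
  · rw [e2, inner_comb h]; nlinarith
  · have := inner_comb h 1 0 0 0 x y
    rw [← e1, ← e2] at this
    rw [this]; ring

theorem sq_one_cases {x : ℝ} (h : x ^ 2 = 1) : x = 1 ∨ x = -1 :=
  by
  have h1 : (x - 1) * (x + 1) = 0 := by linear_combination h
  rcases mul_eq_zero.1 h1 with h2 | h2
  · left; linarith
  · right; linarith

/-- The turning vectors during the motion. -/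
noncomputable def nvec (f g : E3) (x y : ℕ → ℝ) (t : ℝ) (k : ℕ) : E3 :=
  x k • f + y k • (cos t • f + sin t • g)

/-- Each of the numbers is `±1` or zero and the other one is zero or `±1`. -/
def Alt (x y : ℕ → ℝ) : Prop := ∀ k, (x k ^ 2 = 1 ∧ y k = 0) ∨ (x k = 0 ∧ y k ^ 2 = 1)

theorem nvec_pair {e f g : E3} (h : ON e f g) {x y : ℕ → ℝ} (hxy : Alt x y) (t : ℝ) (k : ℕ) :
    Pair e (nvec f g x y t k) := by
  refine ON.pair h (x k + y k * cos t) (y k * sin t) ?_ ?_
  · unfold nvec; module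
  · have h5 := sin_sq_add_cos_sq t
    rcases hxy k with ⟨h1, h2⟩ | ⟨h1, h2⟩
    · rw [h2]; linarith
    · rw [h1]
      linear_combination h2 + (y k) ^ 2 * h5

/-- The direction angles of a flat chain. -/
noncomputable def psi (s α : ℕ → ℝ) (k : ℕ) : ℝ := ∑ j ∈ range k, s j * α j

theorem frm_flat {e f : E3} (h : Pair e f) {s : ℕ → ℝ} (hs : ∀ k, s k = 1 ∨ s k = -1)
    (α : ℕ → ℝ) (k : ℕ) :
    frm e (fun j => s j • f) α k e = cos (psi s α k) • e + sin (psi s α k) • f ∧
      frm e (fun j => s j • f) α k f = -sin (psi s α k) • e + cos (psi s α k) • f := by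
  induction k with
  | zero => simp [frm_zero, psi]
  | succ k ih =>
    have hp : Pair e (s k • f) := by
      refine ⟨h.ee, ?_, ?_⟩
      · rw [inner_smul_left, inner_smul_right, h.nn]
        rcases hs k with h1 | h1 <;> rw [h1] <;> simp
      · rw [inner_smul_right, h.en, mul_zero]
    have hps : psi s α (k + 1) = psi s α k + s k * α k := by
      unfold psi; rw [sum_range_succ]
    have hss : s k • s k • f = f := by
      rw [smul_smul]
      rcases hs k with h1 | h1 <;> rw [h1] <;> norm_num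
    have h2 : rot e (s k • f) (α k) f = -(sin (α k) * s k) • e + cos (α k) • f := by
      have h3 := rot_snd hp (α k)
      have h4 : rot e (s k • f) (α k) f = s k • rot e (s k • f) (α k) (s k • f) := by
        rw [← map_smul, hss]
      rw [h4, h3, smul_add, smul_comm (s k) (cos (α k)), hss, smul_smul]
      module
    have h6 : sin (s k * α k) = s k * sin (α k) := by
      rcases hs k with h1 | h1 <;> rw [h1]
      · rw [one_mul, one_mul]
      · rw [neg_one_mul, neg_one_mul, sin_neg]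
    have h7 : cos (s k * α k) = cos (α k) := by
      rcases hs k with h1 | h1 <;> rw [h1]
      · rw [one_mul]
      · rw [neg_one_mul, cos_neg]
    constructor
    · rw [frm_succ, rot_fst hp, map_add, map_smul, map_smul, map_smul, ih.1, ih.2, hps, cos_add,
        sin_add, h6, h7]
      module
    · rw [frm_succ, h2, map_add, map_smul, map_smul, ih.1, ih.2, hps, cos_add, sin_add, h6, h7]
      module

/-- The squared length of a chord of a flat chain. -/
noncomputable def flatSq (s α c : ℕ → ℝ) (m : ℕ) : ℝ :=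
  (∑ k ∈ range (m + 1), c k * cos (psi s α k)) ^ 2 +
    (∑ k ∈ range (m + 1), c k * sin (psi s α k)) ^ 2

theorem norm_flat {e f : E3} (h : Pair e f) {s : ℕ → ℝ} (hs : ∀ k, s k = 1 ∨ s k = -1)
    (α c : ℕ → ℝ) (m : ℕ) :
    ‖∑ k ∈ range (m + 1), c k • frm e (fun j => s j • f) α k e‖ ^ 2 = flatSq s α c m := by
  have h1 : ∑ k ∈ range (m + 1), c k • frm e (fun j => s j • f) α k e =
      (∑ k ∈ range (m + 1), c k * cos (psi s α k)) • e +
        (∑ k ∈ range (m + 1), c k * sin (psi s α k)) • f := by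
    rw [sum_smul, sum_smul, ← sum_add_distrib]
    refine sum_congr rfl fun k _ => ?_
    rw [(frm_flat h hs α k).1]
    module
  rw [h1, norm_comb h]
  rfl

theorem ON.norm_sq {e f g : E3} (h : ON e f g) (x y z : ℝ) :
    ‖x • e + y • f + z • g‖ ^ 2 = x ^ 2 + y ^ 2 + z ^ 2 := by
  rw [← real_inner_self_eq_norm_sq, inner_comb h]
  ring

/-- The linear chord. -/
theorem lin_chord (e f g : E3) (x y α c : ℕ → ℝ) (t : ℝ) (m : ℕ) :
    ∑ k ∈ range (m + 1), c k • (e + ∑ j ∈ range k, α j • nvec f g x y t j) =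
      (∑ k ∈ range (m + 1), c k) • e +
      (∑ k ∈ range (m + 1), c k * ∑ j ∈ range k, α j * x j +
        (∑ k ∈ range (m + 1), c k * ∑ j ∈ range k, α j * y j) * cos t) • f +
      ((∑ k ∈ range (m + 1), c k * ∑ j ∈ range k, α j * y j) * sin t) • g := by
  rw [sum_smul, add_smul, sum_mul, sum_mul, sum_smul, sum_smul, sum_smul, ← sum_add_distrib,
    ← sum_add_distrib, ← sum_add_distrib]
  refine sum_congr rfl fun k _ => ?_
  have h1 : ∑ j ∈ range k, α j • nvec f g x y t j =
      (∑ j ∈ range k, α j * x j) • f + (∑ j ∈ range k, α j * y j) • (cos t • f + sin t • g) := by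
    rw [sum_smul, sum_smul, ← sum_add_distrib]
    refine sum_congr rfl fun j _ => ?_
    unfold nvec
    module
  rw [h1]
  module

/-- **Key estimate.** If a chord vanishes during the motion, the corresponding chord of one of the
two flat chains is short. -/
theorem mix {e f g : E3} (h : ON e f g) {x y α c : ℕ → ℝ} (hxy : Alt x y) (h0 : ∀ k, 0 ≤ α k)
    (m : ℕ) {L : ℝ} (hL : ∑ k ∈ range (m + 1), |c k| ≤ L) (t : ℝ)
    (hz : ∑ k ∈ range (m + 1), c k • frm e (nvec f g x y t) α k e = 0) :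
    flatSq (fun k => x k + y k) α c m ≤ (L * (∑ j ∈ range m, α j) ^ 2) ^ 2 ∨
      flatSq (fun k => x k - y k) α c m ≤ (L * (∑ j ∈ range m, α j) ^ 2) ^ 2 := by
  set B : ℝ := L * (∑ j ∈ range m, α j) ^ 2 / 2 with hB
  have hL0 : 0 ≤ L := (sum_nonneg fun k _ => abs_nonneg (c k)).trans hL
  have hB0 : 0 ≤ B := by rw [hB]; positivity
  obtain ⟨C, hC⟩ : ∃ C, C = ∑ k ∈ range (m + 1), c k := ⟨_, rfl⟩
  obtain ⟨R, hR⟩ : ∃ R, R = ∑ k ∈ range (m + 1), c k * ∑ j ∈ range k, α j * x j := ⟨_, rfl⟩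
  obtain ⟨D, hD⟩ : ∃ D, D = ∑ k ∈ range (m + 1), c k * ∑ j ∈ range k, α j * y j := ⟨_, rfl⟩
  have hlin : ∀ t, ‖∑ k ∈ range (m + 1), c k • (e + ∑ j ∈ range k, α j • nvec f g x y t j)‖ ^ 2 =
      C ^ 2 + (R + D * cos t) ^ 2 + (D * sin t) ^ 2 := by
    intro t
    rw [lin_chord, ON.norm_sq h, hC, hR, hD]
  have h1 := chord_approx (fun k => nvec_pair h hxy t k) h0 c m hL
  rw [hz, zero_sub, norm_neg] at h1
  have h2 : C ^ 2 + (R + D * cos t) ^ 2 + (D * sin t) ^ 2 ≤ B ^ 2 := by
    rw [← hlin t]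
    exact pow_le_pow_left₀ (norm_nonneg _) h1 2
  -- one of the two flat linear chords is short
  have h3 : C ^ 2 + (R + D) ^ 2 ≤ B ^ 2 ∨ C ^ 2 + (R - D) ^ 2 ≤ B ^ 2 := by
    have h5 := sin_sq_add_cos_sq t
    have h6 : C ^ 2 + R ^ 2 + D ^ 2 + 2 * (R * D) * cos t ≤ B ^ 2 := by
      have h7 : (D * sin t) ^ 2 = D ^ 2 - (D * cos t) ^ 2 := by
        linear_combination D ^ 2 * h5
      nlinarith
    rcases le_total 0 (R * D) with h7 | h7
    · right
      nlinarith [neg_one_le_cos t, mul_le_mul_of_nonneg_left (neg_one_le_cos t) h7]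
    · left
      nlinarith [cos_le_one t, mul_le_mul_of_nonpos_left (cos_le_one t) h7]
  -- from the linear chord to the chord
  have h8 : ∀ (s : ℕ → ℝ) (τ : ℝ), (∀ k, s k = 1 ∨ s k = -1) →
      (∀ k, nvec f g x y τ k = s k • f) →
      ‖∑ k ∈ range (m + 1), c k • (e + ∑ j ∈ range k, α j • nvec f g x y τ j)‖ ^ 2 ≤ B ^ 2 →
      flatSq s α c m ≤ (2 * B) ^ 2 := by
    intro s τ hs hn hsq
    have hp : Pair e f := ON.pair h 1 0 (by simp) (by norm_num)
    have h9 := chord_approx (fun k => nvec_pair h hxy τ k) h0 c m hL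
    have h10 : ‖∑ k ∈ range (m + 1), c k • (e + ∑ j ∈ range k, α j • nvec f g x y τ j)‖ ≤ B :=
      abs_le_of_sq_le_sq' hsq hB0 |>.2
    have h11 : ‖∑ k ∈ range (m + 1), c k • frm e (nvec f g x y τ) α k e‖ ≤ 2 * B := by
      have h12 := norm_le_norm_sub_add
        (∑ k ∈ range (m + 1), c k • frm e (nvec f g x y τ) α k e)
        (∑ k ∈ range (m + 1), c k • (e + ∑ j ∈ range k, α j • nvec f g x y τ j))
      linarith
    have h13 : nvec f g x y τ = fun j => s j • f := funext hn
    rw [← norm_flat hp hs α c m, ← h13]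
    exact pow_le_pow_left₀ (norm_nonneg _) h11 2
  have h14 : (2 * B) ^ 2 = (L * (∑ j ∈ range m, α j) ^ 2) ^ 2 := by rw [hB]; ring
  rcases h3 with h3 | h3
  · left
    rw [← h14]
    refine h8 _ 0 ?_ ?_ ?_
    · intro k
      rcases hxy k with ⟨h1, h2⟩ | ⟨h1, h2⟩
      · rw [h2, add_zero]; exact sq_one_cases h1
      · rw [h1, zero_add]; exact sq_one_cases h2
    · intro k
      unfold nvec
      rw [cos_zero, sin_zero]
      module
    · rw [hlin 0, cos_zero, sin_zero]
      nlinarith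
  · right
    rw [← h14]
    refine h8 _ π ?_ ?_ ?_
    · intro k
      rcases hxy k with ⟨h1, h2⟩ | ⟨h1, h2⟩
      · rw [h2, sub_zero]; exact sq_one_cases h1
      · rw [h1, zero_sub]
        rcases sq_one_cases h2 with h | h
        · right; rw [h]
        · left; rw [h, neg_neg]
    · intro k
      unfold nvec
      rw [cos_pi, sin_pi]
      module
    · rw [hlin π, cos_pi, sin_pi]
      nlinarith

end Pool.Agent.Thin
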