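import Pool.Agent.Thin.Cfg

/-!
# The motion between two flat thin chains
-/

set_option autoImplicit false

namespace Pool.Agent.Thin

open Real Finset Pool.Agent.Lib_helper54.Flat

/-- Rotation of an orthonormal frame in the plane of the first two vectors. -/
theorem ON_rot' {a b c : E3} (h : ON a b c) (φ : ℝ) :
    ON (cos φ • a + sin φ • b) (-sin φ • a + cos φ • b) c := by
  have h1 : ON c a b := ⟨h.cc, h.aa, h.bb, by rw [real_inner_comm]; exact h.ac,
    by rw [real_inner_comm]; exact h.bc, h.ab⟩
  have h2 := ON_rot h1 φ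
  exact ⟨h2.bb, h2.cc, h2.aa, h2.bc, by rw [real_inner_comm]; exact h2.ab,
    by rw [real_inner_comm]; exact h2.ac⟩

/-- The configuration. -/
noncomputable def cfg (n : ℕ) (p e : E3) (nn : ℕ → E3) (α ρ : ℕ → ℝ) : Fin (n + 1) → E3 :=
  fun i => vtt p e nn α ρ i.val

/-- The turning signs. -/
noncomputable def sn (θ s : ℕ → ℝ) (k : ℕ) : ℝ := if θ k ≤ π / 2 then -s k else s k

theorem sn_cases {θ s : ℕ → ℝ} (hs : ∀ k, s k = 1 ∨ s k = -1) (k : ℕ) :
    sn θ s k = 1 ∨ sn θ s k = -1 := by
  unfold sn
  split_ifs
  · rcases hs k with h | h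
    · right; rw [h]
    · left; rw [h, neg_neg]
  · exact hs k

theorem az_psi {θ s : ℕ → ℝ} (h0 : ∀ k, 0 ≤ θ k) (h1 : ∀ k, θ k ≤ π)
    (hs : ∀ k, s k = 1 ∨ s k = -1) (ω : ℝ) (k : ℕ) :
    cos (az ω s (fun _ => 0) θ k) = sg θ k * cos (ω + psi (sn θ s) (al θ) k) ∧
      sin (az ω s (fun _ => 0) θ k) = sg θ k * sin (ω + psi (sn θ s) (al θ) k) := by
  induction k with
  | zero =>
    unfold psi
    rw [range_zero, sum_empty, add_zero]
    change cos ω = 1 * cos ω ∧ sin ω = 1 * sin ω
    exact ⟨(one_mul _).symm, (one_mul _).symm⟩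
  | succ k ih =>
    have h2 : psi (sn θ s) (al θ) (k + 1) = psi (sn θ s) (al θ) k + sn θ s k * al θ k := by
      unfold psi; rw [sum_range_succ]
    have h3 : sg θ (k + 1) = if θ k ≤ π / 2 then -sg θ k else sg θ k := rfl
    rw [az_succ, dlt_zero (h0 k) (h1 k), h2, h3, ← add_assoc, cos_add, sin_add, ih.1, ih.2,
      cos_add (ω + _), sin_add (ω + _)]
    unfold sn al
    rcases hs k with h | h
    · rw [h]
      split_ifs with h4
      · rw [min_eq_left (by linarith)]
        simp only [one_mul, neg_mul, cos_neg, sin_neg, cos_pi_sub, sin_pi_sub]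
        constructor <;> ring
      · push Not at h4
        rw [min_eq_right (by linarith)]
        simp only [one_mul, cos_pi_sub, sin_pi_sub]
        constructor <;> ring
    · rw [h]
      split_ifs with h4
      · rw [min_eq_left (by linarith)]
        simp only [neg_neg, one_mul, neg_mul, cos_neg, sin_neg, cos_pi_sub, sin_pi_sub]
        constructor <;> ring
      · push Not at h4
        rw [min_eq_right (by linarith)]
        simp only [one_mul, neg_mul, cos_neg, sin_neg, cos_pi_sub, sin_pi_sub]
        constructor <;> ring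

/-- A flat chain as a product of rotations. -/
theorem chain_flat {n : ℕ} {p a b c : E3} (h : ON a b c) {ω : ℝ} {l θ s : ℕ → ℝ}
    (h0 : ∀ k, 0 ≤ θ k) (h1 : ∀ k, θ k ≤ π) (hs : ∀ k, s k = 1 ∨ s k = -1) :
    chain n p a b c ω l s (fun _ => 0) θ =
      cfg n p (cos ω • a + sin ω • b) (fun k => sn θ s k • (-sin ω • a + cos ω • b)) (al θ)
        (rh l θ) := by
  have hp : Pair (cos ω • a + sin ω • b) (-sin ω • a + cos ω • b) :=
    ON.pair (ON_rot' h ω) 1 0 (by simp) (by norm_num)
  have hv : ∀ k, vtx p a b c ω l s (fun _ => 0) θ k =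
      vtt p (cos ω • a + sin ω • b) (fun k => sn θ s k • (-sin ω • a + cos ω • b)) (al θ)
        (rh l θ) k := by
    intro k
    induction k with
    | zero => rfl
    | succ k ih =>
      rw [vtx_succ, vtt_succ, ih]
      congr 1
      unfold dir rh
      rw [(frm_flat hp (sn_cases hs) (al θ) k).1, (az_psi h0 h1 hs ω k).1,
        (az_psi h0 h1 hs ω k).2, cos_add, sin_add]
      simp only [cos_zero, one_mul, sin_zero, zero_smul, add_zero]
      module
  funext i
  exact hv i.val

theorem continuous_rot {X : Type} [TopologicalSpace X] {e m v : X → E3} (α : ℝ)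
    (he : Continuous e) (hm : Continuous m) (hv : Continuous v) :
    Continuous fun t => rot (e t) (m t) α (v t) := by
  have h : (fun t => rot (e t) (m t) α (v t)) = fun t =>
      v t + ((cos α - 1) * inner ℝ (e t) (v t) - sin α * inner ℝ (m t) (v t)) • e t +
        (sin α * inner ℝ (e t) (v t) + (cos α - 1) * inner ℝ (m t) (v t)) • m t := rfl
  rw [h]
  have h1 : Continuous fun t => (inner ℝ (e t) (v t) : ℝ) := he.inner hv
  have h2 : Continuous fun t => (inner ℝ (m t) (v t) : ℝ) := hm.inner hv
  exact (hv.add (((continuous_const.mul h1).sub (continuous_const.mul h2)).smul he)).add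
    (((continuous_const.mul h1).add (continuous_const.mul h2)).smul hm)

theorem continuous_frm {X : Type} [TopologicalSpace X] {e : X → E3} {m : X → ℕ → E3}
    (α : ℕ → ℝ) (he : Continuous e) (hm : ∀ k, Continuous fun t => m t k) (k : ℕ) :
    ∀ v : X → E3, Continuous v → Continuous fun t => frm (e t) (m t) α k (v t) := by
  induction k with
  | zero => intro v hv; exact hv
  | succ k ih =>
    intro v hv
    exact ih _ (continuous_rot (α k) he (hm k) hv)

theorem continuous_vtt {X : Type} [TopologicalSpace X] {p e : X → E3} {m : X → ℕ → E3}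
    (α ρ : ℕ → ℝ) (hp : Continuous p) (he : Continuous e)
    (hm : ∀ k, Continuous fun t => m t k) (k : ℕ) :
    Continuous fun t => vtt (p t) (e t) (m t) α ρ k := by
  induction k with
  | zero => exact hp
  | succ k ih => exact ih.add ((continuous_frm α he hm k _ he).const_smul (ρ k))

end Pool.Agent.Thin
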