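import Mathlib

/-!
# Products of small rotations

`rot e n α` is the rotation by the angle `α` in the plane of the orthonormal vectors `e`, `n`, and
`frm e n α k` is the product of the first `k` rotations `rot e (n j) (α j)`.
-/

set_option autoImplicit false

namespace Pool.Agent.Thin

open Real Finset

variable {V : Type} [NormedAddCommGroup V] [InnerProductSpace ℝ V]

/-- The rotation by `α` in the plane of `e`, `n`. -/
noncomputable def rot (e n : V) (α : ℝ) : V →ₗ[ℝ] V where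
  toFun v := v + ((cos α - 1) * inner ℝ e v - sin α * inner ℝ n v) • e +
    (sin α * inner ℝ e v + (cos α - 1) * inner ℝ n v) • n
  map_add' v w := by
    simp only [inner_add_right]
    module
  map_smul' r v := by
    simp only [inner_smul_right, RingHom.id_apply]
    module

/-- Two orthonormal vectors. -/
structure Pair (e n : V) : Prop where
  ee : inner ℝ e e = (1 : ℝ)
  nn : inner ℝ n n = (1 : ℝ)
  en : inner ℝ e n = (0 : ℝ)

theorem rot_apply (e n : V) (α : ℝ) (v : V) : rot e n α v =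
    v + ((cos α - 1) * inner ℝ e v - sin α * inner ℝ n v) • e +
      (sin α * inner ℝ e v + (cos α - 1) * inner ℝ n v) • n := rfl

theorem Pair.ne {e n : V} (h : Pair e n) : inner ℝ n e = (0 : ℝ) := by
  rw [real_inner_comm]; exact h.en

theorem rot_fst {e n : V} (h : Pair e n) (α : ℝ) : rot e n α e = cos α • e + sin α • n := by
  rw [rot_apply, h.ee, h.ne]
  module

theorem rot_snd {e n : V} (h : Pair e n) (α : ℝ) : rot e n α n = -sin α • e + cos α • n := by
  rw [rot_apply, h.en, h.nn]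
  module

theorem rot_inner {e n : V} (h : Pair e n) (α : ℝ) (v w : V) :
    inner ℝ (rot e n α v) (rot e n α w) = (inner ℝ v w : ℝ) := by
  rw [rot_apply, rot_apply]
  simp only [inner_add_left, inner_add_right, inner_smul_left, inner_smul_right, h.ee, h.en,
    h.nn, h.ne, RCLike.conj_to_real]
  rw [real_inner_comm e v, real_inner_comm n v]
  have h1 := sin_sq_add_cos_sq α
  linear_combination ((inner ℝ e v : ℝ) * inner ℝ e w + inner ℝ n v * inner ℝ n w) * h1

/-- Bessel's inequality. -/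
theorem bessel {e n : V} (h : Pair e n) (v : V) :
    (inner ℝ e v : ℝ) ^ 2 + (inner ℝ n v : ℝ) ^ 2 ≤ ‖v‖ ^ 2 := by
  have h1 : 0 ≤ ‖v - (inner ℝ e v : ℝ) • e - (inner ℝ n v : ℝ) • n‖ ^ 2 := sq_nonneg _
  rw [← real_inner_self_eq_norm_sq] at h1
  simp only [inner_sub_left, inner_sub_right, inner_smul_left, inner_smul_right, h.ee, h.en,
    h.nn, h.ne, RCLike.conj_to_real] at h1
  rw [real_inner_self_eq_norm_sq, real_inner_comm e v, real_inner_comm n v] at h1
  nlinarith

theorem norm_comb {e n : V} (h : Pair e n) (x y : ℝ) : ‖x • e + y • n‖ ^ 2 = x ^ 2 + y ^ 2 := by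
  rw [← real_inner_self_eq_norm_sq]
  simp only [inner_add_left, inner_add_right, inner_smul_left, inner_smul_right, h.ee, h.en,
    h.nn, h.ne, RCLike.conj_to_real]
  ring

theorem norm_rot_sub {e n : V} (h : Pair e n) {α : ℝ} (h0 : 0 ≤ α) (v : V) :
    ‖rot e n α v - v‖ ≤ α * ‖v‖ := by
  have h1 : rot e n α v - v = ((cos α - 1) * inner ℝ e v - sin α * inner ℝ n v) • e +
      (sin α * inner ℝ e v + (cos α - 1) * inner ℝ n v) • n := by
    rw [rot_apply]; module
  have h2 : ‖rot e n α v - v‖ ^ 2 ≤ (α * ‖v‖) ^ 2 := by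
    rw [h1, norm_comb h]
    have h3 := bessel h v
    have h4 := Real.one_sub_sq_div_two_le_cos (x := α)
    have h5 := sin_sq_add_cos_sq α
    have h6 : ((cos α - 1) * inner ℝ e v - sin α * inner ℝ n v) ^ 2 +
        (sin α * inner ℝ e v + (cos α - 1) * inner ℝ n v) ^ 2 =
        (2 - 2 * cos α) * ((inner ℝ e v : ℝ) ^ 2 + (inner ℝ n v : ℝ) ^ 2) := by
      linear_combination ((inner ℝ e v : ℝ) ^ 2 + (inner ℝ n v : ℝ) ^ 2) * h5
    rw [h6, mul_pow]
    have h7 : 0 ≤ 2 - 2 * cos α := by linarith [cos_le_one α]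
    have h8 : 2 - 2 * cos α ≤ α ^ 2 := by linarith
    have h9 : 0 ≤ ‖v‖ ^ 2 := sq_nonneg _
    calc (2 - 2 * cos α) * ((inner ℝ e v : ℝ) ^ 2 + (inner ℝ n v : ℝ) ^ 2)
        ≤ (2 - 2 * cos α) * ‖v‖ ^ 2 := mul_le_mul_of_nonneg_left h3 h7
      _ ≤ α ^ 2 * ‖v‖ ^ 2 := mul_le_mul_of_nonneg_right h8 h9
  exact abs_le_of_sq_le_sq' h2 (by positivity) |>.2

/-- `2 - 2 cos α + α^2 - 2 α sin α ≤ α^4 / 4`. -/
theorem trig_ineq {α : ℝ} (h0 : 0 ≤ α) :
    (cos α - 1) ^ 2 + (sin α - α) ^ 2 ≤ (α ^ 2 / 2) ^ 2 := by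
  have hmono : MonotoneOn (fun x : ℝ => x ^ 4 / 4 - 2 + 2 * cos x - x ^ 2 + 2 * x * sin x)
      (Set.Ici 0) := by
    apply monotoneOn_of_deriv_nonneg (convex_Ici 0)
    · fun_prop
    · intro x _
      apply DifferentiableAt.differentiableWithinAt
      fun_prop
    · intro x hx
      rw [interior_Ici] at hx
      have hx0 : 0 < x := hx
      have hd : HasDerivAt (fun x : ℝ => x ^ 4 / 4 - 2 + 2 * cos x - x ^ 2 + 2 * x * sin x)
          (4 * x ^ 3 / 4 - 0 + 2 * (-sin x) - 2 * x + (2 * sin x + 2 * x * cos x)) x := by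
        have d1 : HasDerivAt (fun x : ℝ => x ^ 4 / 4) (4 * x ^ 3 / 4) x := by
          simpa using (hasDerivAt_pow 4 x).div_const 4
        have d2 : HasDerivAt (fun _ : ℝ => (2 : ℝ)) 0 x := hasDerivAt_const x 2
        have d3 : HasDerivAt (fun x : ℝ => 2 * cos x) (2 * (-sin x)) x :=
          (hasDerivAt_cos x).const_mul 2
        have d4 : HasDerivAt (fun x : ℝ => x ^ 2) (2 * x) x := by
          simpa using hasDerivAt_pow 2 x
        have d5 : HasDerivAt (fun x : ℝ => 2 * x * sin x) (2 * sin x + 2 * x * cos x) x := by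
          have d6 : HasDerivAt (fun x : ℝ => 2 * x) 2 x := by
            simpa using (hasDerivAt_id x).const_mul 2
          exact d6.mul (hasDerivAt_sin x)
        exact (((d1.sub d2).add d3).sub d4).add d5
      rw [hd.deriv]
      have h4 := Real.one_sub_sq_div_two_le_cos (x := x)
      nlinarith [mul_pos hx0 hx0, mul_le_mul_of_nonneg_left h4 hx0.le]
  have h1 := hmono (Set.mem_Ici.2 le_rfl) (Set.mem_Ici.2 h0) h0
  simp only [cos_zero, sin_zero, mul_zero] at h1
  have h5 := sin_sq_add_cos_sq α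
  nlinarith

theorem norm_rot_fst {e n : V} (h : Pair e n) {α : ℝ} (h0 : 0 ≤ α) :
    ‖rot e n α e - e - α • n‖ ≤ α ^ 2 / 2 := by
  have h1 : rot e n α e - e - α • n = (cos α - 1) • e + (sin α - α) • n := by
    rw [rot_fst h]; module
  have h2 : ‖rot e n α e - e - α • n‖ ^ 2 ≤ (α ^ 2 / 2) ^ 2 := by
    rw [h1, norm_comb h]
    exact trig_ineq h0
  exact abs_le_of_sq_le_sq' h2 (by positivity) |>.2

/-- Products of rotations. -/
noncomputable def frm (e : V) (n : ℕ → V) (α : ℕ → ℝ) : ℕ → (V →ₗ[ℝ] V)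
  | 0 => LinearMap.id
  | k + 1 => (frm e n α k).comp (rot e (n k) (α k))

theorem frm_zero (e : V) (n : ℕ → V) (α : ℕ → ℝ) (v : V) : frm e n α 0 v = v := rfl

theorem frm_succ (e : V) (n : ℕ → V) (α : ℕ → ℝ) (k : ℕ) (v : V) :
    frm e n α (k + 1) v = frm e n α k (rot e (n k) (α k) v) := rfl

theorem frm_inner {e : V} {n : ℕ → V} (h : ∀ k, Pair e (n k)) (α : ℕ → ℝ) (k : ℕ) :
    ∀ v w : V, inner ℝ (frm e n α k v) (frm e n α k w) = (inner ℝ v w : ℝ) := by
  induction k with
  | zero => intro v w; rfl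
  | succ k ih =>
    intro v w
    rw [frm_succ, frm_succ, ih, rot_inner (h k)]

theorem frm_norm {e : V} {n : ℕ → V} (h : ∀ k, Pair e (n k)) (α : ℕ → ℝ) (k : ℕ) (v : V) :
    ‖frm e n α k v‖ = ‖v‖ := by
  have h1 := frm_inner h α k v v
  rw [real_inner_self_eq_norm_sq, real_inner_self_eq_norm_sq] at h1
  exact (sq_eq_sq₀ (norm_nonneg _) (norm_nonneg _)).1 h1

theorem frm_add (e : V) (n : ℕ → V) (α : ℕ → ℝ) (i m : ℕ) (v : V) :
    frm e n α (i + m) v =
      frm e n α i (frm e (fun k => n (i + k)) (fun k => α (i + k)) m v) := by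
  induction m generalizing v with
  | zero => rfl
  | succ m ih => rw [← Nat.add_assoc, frm_succ, ih, frm_succ]

theorem frm_sub {e : V} {n : ℕ → V} (h : ∀ k, Pair e (n k)) {α : ℕ → ℝ} (h0 : ∀ k, 0 ≤ α k)
    (k : ℕ) (v : V) : ‖frm e n α k v - v‖ ≤ (∑ j ∈ range k, α j) * ‖v‖ := by
  induction k generalizing v with
  | zero => rw [frm_zero, sub_self, norm_zero, sum_range_zero, zero_mul]
  | succ k ih =>
    have h1 : frm e n α (k + 1) v - v =
        frm e n α k (rot e (n k) (α k) v - v) + (frm e n α k v - v) := by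
      rw [frm_succ, map_sub]; abel
    rw [h1, sum_range_succ, add_mul]
    refine (norm_add_le _ _).trans ?_
    rw [frm_norm h, add_comm]
    exact add_le_add (ih v) (norm_rot_sub (h k) (h0 k) v)

/-- The linear approximation of the directions. -/
theorem frm_fst {e : V} {n : ℕ → V} (h : ∀ k, Pair e (n k)) {α : ℕ → ℝ} (h0 : ∀ k, 0 ≤ α k)
    (k : ℕ) : ‖frm e n α k e - (e + ∑ j ∈ range k, α j • n j)‖ ≤
      (∑ j ∈ range k, α j) ^ 2 / 2 := by
  induction k with
  | zero => simp [frm_zero]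
  | succ k ih =>
    have h1 : frm e n α (k + 1) e - (e + ∑ j ∈ range (k + 1), α j • n j) =
        frm e n α k (rot e (n k) (α k) e - e - α k • n k) +
          α k • (frm e n α k (n k) - n k) +
          (frm e n α k e - (e + ∑ j ∈ range k, α j • n j)) := by
      rw [frm_succ, sum_range_succ, map_sub, map_sub, map_smul]
      module
    have hn : ‖n k‖ = 1 := by
      have := (h k).nn
      rw [real_inner_self_eq_norm_sq] at this
      exact (pow_eq_one_iff_of_nonneg (norm_nonneg _) two_ne_zero).1 this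
    have h2 := norm_rot_fst (h k) (h0 k)
    have h3 := frm_sub h h0 k (n k)
    rw [hn, mul_one] at h3
    rw [h1, sum_range_succ]
    refine (norm_add_le _ _).trans ?_
    refine (add_le_add_left (norm_add_le _ _) _).trans ?_
    rw [frm_norm h, norm_smul, Real.norm_of_nonneg (h0 k)]
    have h4 := mul_le_mul_of_nonneg_left h3 (h0 k)
    nlinarith

/-- The linear approximation of the chords. -/
theorem chord_approx {e : V} {n : ℕ → V} (h : ∀ k, Pair e (n k)) {α : ℕ → ℝ}
    (h0 : ∀ k, 0 ≤ α k) (c : ℕ → ℝ) (m : ℕ) {L : ℝ}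
    (hL : ∑ k ∈ range (m + 1), |c k| ≤ L) :
    ‖∑ k ∈ range (m + 1), c k • frm e n α k e -
      ∑ k ∈ range (m + 1), c k • (e + ∑ j ∈ range k, α j • n j)‖ ≤
      L * (∑ j ∈ range m, α j) ^ 2 / 2 := by
  rw [← sum_sub_distrib]
  refine (norm_sum_le _ _).trans ?_
  have h1 : ∀ k ∈ range (m + 1), ‖c k • frm e n α k e - c k • (e + ∑ j ∈ range k, α j • n j)‖ ≤
      |c k| * ((∑ j ∈ range m, α j) ^ 2 / 2) := by
    intro k hk
    rw [← smul_sub, norm_smul, Real.norm_eq_abs]
    refine mul_le_mul_of_nonneg_left ((frm_fst h h0 k).trans ?_) (abs_nonneg _)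
    have h2 : ∑ j ∈ range k, α j ≤ ∑ j ∈ range m, α j :=
      sum_le_sum_of_subset_of_nonneg (range_subset_range.2 (by
        have := mem_range.1 hk; omega)) fun j _ _ => h0 j
    have h3 : 0 ≤ ∑ j ∈ range k, α j := sum_nonneg fun j _ => h0 j
    have h4 := pow_le_pow_left₀ h3 h2 2
    linarith
  refine (sum_le_sum h1).trans ?_
  rw [← sum_mul]
  have h5 : 0 ≤ (∑ j ∈ range m, α j) ^ 2 / 2 := by positivity
  have h6 := mul_le_mul_of_nonneg_right hL h5
  linarith

end Pool.Agent.Thin
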